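import Pool.Agent.H89.UD.Defs

/-!
# Nrm : the normaliser of a subfield in terms of supports

PROOFS. `exists_sub`: `Eˣ` is cyclic (`IsCyclic Eˣ`, finite field) of order `q^(2r) - 1`; let `γ` be a generator and `a = γ ^ ((q^(2r) - 1) / (q^k - 1))`: it has order `q^k - 1`, so `a ^ (q^k) = a` and `a^q ≠ a` (as `q - 1 < q^k - 1`); `fr` is the power `q` (`fr_apply`), `(fr ^ k) a = a ^ (q^k)`.
`Nat.card E = q ^ (2r)`: `Module.natCard_eq_pow_finrank`, `D.fin`. (`(q^k - 1) ∣ (q^(2r) - 1)`: `Nat.pow_sub_one_dvd...` or `Nat.sub_one_dvd_pow..`.) Alternative: if every `a` fixed by `fr^k` were fixed by `fr` then the fixed fields of `⟨fr^k⟩` and `⟨fr⟩` would agree, but the orders are `2r/k` and `2r`.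
`Nor_SS`: choose `c₀` with `co x c₀ ≠ 0` (`x ≠ 0`, `ext_co`), `s = res k c₀`, `a` from `exists_sub`, `b` from `hx`: `x * M a = M b * x`. For `c` with `co x c ≠ 0`: `co x c * σ c a = b * co x c` (`co_mul_M`, `co_M_mul`), so `σ c a = b = σ c₀ a`, hence `σ (c - c₀) a = a`, i.e. `fr^n a = a` for
`n = (c - c₀).val`. If `k ∤ n` then `gcd (n, k) = 1` and `fr a = a` (`Function.IsPeriodicPt.gcd`), contradiction. So `k ∣ n` and `res k (c - c₀) = 0`, `res_sub`.
`exists_LL`: for `s = t = 0` take `ℓ Z = Tr (t₀ * Z 1)`, `Tr t₀ = 1` (`Algebra.trace_surjective`). `LL_adm`: if `s = 0` and `t = 0` then `ℓ (z • 1) = z`; otherwise say `s ≠ 0`: `0 ∉ cl k s` (`res_zero`), so `co (z • 1) 0 = z • 1 = 0` (`co_smul`, `co_M`, `M_one`).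
`Triv_of`: let `x ∈ G`, `Nor k x`, `Nor l (g⁻¹ x g)`. By `Nor_SS` there are `s`, `t` with `x ∈ SS (cl k s)`, `g⁻¹ x g ∈ SS (cl l t)`. If `s = 0` and `t = 0`: let `ℓ` with `ℓ 1 = 1`, `Z = x - ℓ(x) • 1`: `1 ∈ SS (cl k 0)` (`co_M` with `a = 1`, `M_one`, `res_zero`), so `Z` satisfies the conditions, `ℓ Z = 0`, so `Z = 0`: `x = z • 1`.
Otherwise `ℓ = 0`: `x` itself satisfies the conditions, so `x = 0`, impossible. From `x = z • 1` and `x ∈ G`: `z² B = B`, `B ≠ 0` (`B_nondeg`), so `z = ± 1`.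
-/

set_option autoImplicit false
set_option linter.unusedSectionVars false

namespace Pool.Agent.H89.UD

open Module Pool.Agent.H32.UD

variable {F E : Type} [Field F] [Field E] [Algebra F E] (D : Dat F E) [Finite F] [Finite E]

include D in
theorem exists_sub {k : ℕ} (hk : k.Prime) (hkr : k ∣ 2 * D.r) :
    ∃ a : E, (fr F E ^ k) a = a ∧ fr F E a ≠ a := by
  by_contra hcon
  push Not at hcon
  have : FiniteDimensional F E := FiniteDimensional.of_finrank_pos (by
    rw [D.fin]; have := D.four_le; omega)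
  have h1 : fr F E ∈ Subgroup.zpowers (fr F E ^ k) := by
    rw [← IntermediateField.fixingSubgroup_fixedField (Subgroup.zpowers (fr F E ^ k)),
      IntermediateField.mem_fixingSubgroup_iff]
    intro x hx
    rw [IntermediateField.mem_fixedField_iff] at hx
    exact hcon x (hx _ (Subgroup.mem_zpowers _))
  have h2 := orderOf_dvd_of_mem_zpowers h1
  have hr := D.four_le
  have h3 : orderOf (fr F E) = 2 * D.r := by rw [orderOf_fr, D.fin]
  have hpos : 0 < 2 * D.r := by omega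
  have h4 : orderOf (fr F E ^ k) = 2 * D.r / k := by
    rw [orderOf_pow' _ hk.ne_zero, h3, Nat.gcd_eq_right hkr]
  rw [h3, h4] at h2
  have h5 : 2 * D.r / k < 2 * D.r := Nat.div_lt_self hpos hk.one_lt
  have h6 : 0 < 2 * D.r / k := Nat.div_pos (Nat.le_of_dvd hpos hkr) hk.pos
  exact absurd (Nat.le_of_dvd h6 h2) (not_le.2 h5)

private theorem fr_pow_iter (a : E) (n : ℕ) : (fr F E ^ n) a = (fr F E)^[n] a := by
  induction n with
  | zero => rfl
  | succ n ih => rw [pow_succ', AlgEquiv.mul_apply, ih, Function.iterate_succ_apply']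

private theorem x_ne (x : E ≃ₗ[F] E) : (x : Module.End F E) ≠ 0 := by
  intro h
  have h1 := LinearMap.congr_fun h (1 : E)
  have h2 : x (1 : E) = 0 := h1
  exact one_ne_zero (x.map_eq_zero_iff.1 h2)

theorem Nor_SS {k : ℕ} (hk : k.Prime) (hkr : k ∣ 2 * D.r) (x : E ≃ₗ[F] E) (hx : Dat.Nor k x) :
    ∃ s : ZMod k, (x : Module.End F E) ∈ SS D (cl D k s) := by
  obtain ⟨c₀, hc₀⟩ : ∃ c₀, D.co (x : Module.End F E) c₀ ≠ 0 := by
    by_contra hcon
    push Not at hcon
    exact x_ne x (D.ext_co fun c => by rw [hcon c, D.co_zero])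
  obtain ⟨a, ha, ha'⟩ := exists_sub D hk hkr
  obtain ⟨b, -, hb⟩ := hx a ha
  have key : ∀ c, D.co (x : Module.End F E) c ≠ 0 → D.σ c a = b := by
    intro c hc
    have h1 := congrArg (fun Y => D.co Y c) hb
    simp only [D.co_mul_M, D.co_M_mul] at h1
    rw [mul_comm b] at h1
    exact mul_left_cancel₀ hc h1
  refine ⟨res D k c₀, fun c hc => ?_⟩
  by_contra hne
  apply hc
  rw [mem_cl]
  have h1 : D.σ c a = D.σ c₀ a := (key c hne).trans (key c₀ hc₀).symm
  have h2 : D.σ (c - c₀) a = a := by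
    have h3 : D.σ c a = D.σ c₀ (D.σ (c - c₀) a) := by
      rw [← D.σ_add_apply, add_sub_cancel]
    exact (D.σ c₀).injective (h3.symm.trans h1)
  have h4 : (fr F E ^ (c - c₀).val) a = a := h2
  have hdvd : k ∣ (c - c₀).val := by
    by_contra hnd
    have hcop : Nat.gcd (c - c₀).val k = 1 := by
      rw [Nat.gcd_comm]
      exact (Nat.Prime.coprime_iff_not_dvd hk).2 hnd
    have p1 : Function.IsPeriodicPt (fr F E) (c - c₀).val a := by
      have := h4
      rw [fr_pow_iter] at this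
      exact this
    have p2 : Function.IsPeriodicPt (fr F E) k a := by
      have := ha
      rw [fr_pow_iter] at this
      exact this
    have p3 := p1.gcd p2
    rw [hcop] at p3
    exact ha' p3
  have h5 : res D k (c - c₀) = 0 := by
    unfold res
    exact (ZMod.natCast_eq_zero_iff _ _).2 hdvd
  rw [res_sub D hkr, sub_eq_zero] at h5
  exact h5

/-- the functional used for the pair `(s, t)` -/
def LL (k l : ℕ) (s : ZMod k) (t : ZMod l) (ℓ : Module.End F E →ₗ[F] F) : Prop :=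
  ((s = 0 ∧ t = 0) → ℓ 1 = 1) ∧ (¬ (s = 0 ∧ t = 0) → ℓ = 0)

theorem exists_LL (k l : ℕ) (s : ZMod k) (t : ZMod l) : ∃ ℓ : Module.End F E →ₗ[F] F, LL k l s t ℓ := by
  by_cases h : s = 0 ∧ t = 0
  · obtain ⟨t₀, ht₀⟩ := Algebra.trace_surjective F E 1
    refine ⟨(Algebra.trace F E) ∘ₗ (LinearMap.mulLeft F t₀) ∘ₗ
      (LinearMap.applyₗ (1 : E) : (E →ₗ[F] E) →ₗ[F] E), fun _ => ?_, fun h' => absurd h h'⟩
    show Algebra.trace F E (t₀ * (1 : Module.End F E) (1 : E)) = 1
    rw [Module.End.one_apply, mul_one, ht₀]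
  · exact ⟨0, fun h' => absurd h' h, fun _ => rfl⟩

private theorem co_one_zero : D.co (1 : Module.End F E) 0 = 1 := by
  rw [← M_one F, D.co_M, if_pos rfl]

private theorem zero_notin {k : ℕ} (hkr : k ∣ 2 * D.r) {s : ZMod k} (hs : s ≠ 0) :
    (0 : ZMod (2 * D.r)) ∉ cl D k s := by
  rw [mem_cl, res_zero D hkr]
  exact fun h => hs h.symm

private theorem smul_aux {k : ℕ} (hkr : k ∣ 2 * D.r) {s : ZMod k} (hs : s ≠ 0) {z : F}
    (h : z • (1 : Module.End F E) ∈ SS D (cl D k s)) : z = 0 := by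
  have h1 := h 0 (zero_notin D hkr hs)
  rw [D.co_smul, co_one_zero] at h1
  exact (smul_eq_zero.1 h1).resolve_right one_ne_zero

theorem LL_adm {k l : ℕ} (hkr : k ∣ 2 * D.r) (hlr : l ∣ 2 * D.r) (s : ZMod k) (t : ZMod l)
    (ℓ : Module.End F E →ₗ[F] F) (h : LL k l s t ℓ) : Adm D (cl D k s) (cl D l t) ℓ := by
  intro z h1 h2 h3
  by_cases hs : s = 0
  · by_cases ht : t = 0
    · have h4 := h.1 ⟨hs, ht⟩
      rw [map_smul, h4, smul_eq_mul, mul_one] at h3
      exact h3
    · exact smul_aux D hlr ht h2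
  · exact smul_aux D hkr hs h1

private theorem one_mem {k : ℕ} (hkr : k ∣ 2 * D.r) :
    (1 : Module.End F E) ∈ SS D (cl D k 0) := by
  intro c hc
  rw [← M_one F, D.co_M, if_neg]
  rintro rfl
  exact hc (by rw [mem_cl, res_zero D hkr])

theorem Triv_of {k l : ℕ} (hk : k.Prime) (hl : l.Prime) (hkr : k ∣ 2 * D.r) (hlr : l ∣ 2 * D.r)
    (L : ZMod k → ZMod l → Module.End F E →ₗ[F] F) (hL : ∀ s t, LL k l s t (L s t)) (g : E ≃ₗ[F] E)
    (hg : ∀ s t, Gd D (cl D k s) (cl D l t) (L s t) g) : D.Triv k l g := by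
  intro x hx h1 h2
  obtain ⟨s, hs⟩ := Nor_SS D hk hkr x h1
  obtain ⟨t, ht⟩ := Nor_SS D hl hlr _ h2
  have ht' : ((g⁻¹ : E ≃ₗ[F] E) : Module.End F E) * (x : Module.End F E) * (g : Module.End F E) ∈
      SS D (cl D l t) := ht
  by_cases hst : s = 0 ∧ t = 0
  · obtain ⟨rfl, rfl⟩ := hst
    have hℓ := (hL 0 0).1 ⟨rfl, rfl⟩
    set z : F := L 0 0 (x : Module.End F E) with hz
    have e1 : ((g⁻¹ : E ≃ₗ[F] E) : Module.End F E) * ((x : Module.End F E) -
        z • (1 : Module.End F E)) * (g : Module.End F E) =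
        ((g⁻¹ : E ≃ₗ[F] E) : Module.End F E) * (x : Module.End F E) * (g : Module.End F E) -
          z • (1 : Module.End F E) := by
      have e2 : ((g⁻¹ : E ≃ₗ[F] E) : Module.End F E) * (g : Module.End F E) = 1 := by
        refine LinearMap.ext fun v => ?_
        show (g⁻¹ : E ≃ₗ[F] E) (g v) = v
        rw [← LinearEquiv.mul_apply, inv_mul_cancel]
        rfl
      rw [mul_sub, sub_mul, mul_smul_comm, mul_one, smul_mul_assoc, e2]
    have h3 := hg 0 0 ((x : Module.End F E) - z • (1 : Module.End F E))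
      (sub_mem hs (Submodule.smul_mem _ _ (one_mem D hkr)))
      (by rw [e1]; exact sub_mem ht' (Submodule.smul_mem _ _ (one_mem D hlr)))
      (by rw [map_sub, map_smul, hℓ, smul_eq_mul, mul_one, ← hz, sub_self])
    have h4 : ∀ v, x v = z • v := fun v => by
      have h5 := LinearMap.congr_fun (sub_eq_zero.1 h3) v
      exact h5
    obtain ⟨y, hy⟩ : ∃ y, D.B (1 : E) y ≠ 0 := by
      by_contra hcon
      push Not at hcon
      exact one_ne_zero (D.B_nondeg hcon)
    have h6 := hx (1 : E) y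
    rw [h4, h4, map_smul, map_smul, LinearMap.smul_apply, smul_eq_mul, smul_eq_mul] at h6
    have h7 : z * z = 1 := by
      have h8 : (z * z) * D.B (1 : E) y = 1 * D.B (1 : E) y := by
        rw [one_mul]
        linear_combination h6
      exact mul_right_cancel₀ hy h8
    rcases mul_self_eq_one_iff.1 h7 with h9 | h9
    · left
      intro v
      rw [h4, h9, one_smul]
    · right
      intro v
      rw [h4, h9, neg_smul, one_smul]
  · exfalso
    have h3 := hg s t (x : Module.End F E) hs ht' (by rw [(hL s t).2 hst]; rfl)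
    exact x_ne x h3

end Pool.Agent.H89.UD
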