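import Pool.Agent.H89.UD.Chn
import Pool.Agent.H89.UD.Nrm

/-!
# Bad : the final count

PROOFS. `bad_count`: let `Bad ⊆ Gc` be the set of the `g` with `¬ Gd .. g` and `V' = {X ∈ 𝔤 | 1 + X injective}`, `2 |V'| ≥ |𝔤|` by `count_one` (`q - 1 ≥ 4 r`). For `X ∈ V'` let `u_X ∈ Cay ⊆ Gc` with `u_X (1 + X) = 1 - X`. Count the pairs `(h, X) ∈ Gc × V'` with `h u_X ∈ Bad`: for fixed `X` the map `h ↦ h u_X` is a bijection of `Gc`, so there are
`|Bad| |V'|` pairs; for fixed `h` at most `8 r^2 |𝔤| / (q - 1)` by `Psi_inj_iff`, `good_all`, `count_Psi`. So `|Bad| |V'| (q - 1) ≤ |Gc| 8 r^2 |𝔤| ≤ |Gc| 16 r^2 |V'|` and `|Bad| (q - 1) ≤ 16 r^2 |Gc|`.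
`bad_small`: `C = 32 r^2 (2 r)^2`, `q0 = 24 r^2 + 4 r + 2`. By `Triv_of` (with `L` chosen from `exists_LL`) the set in question is contained in the union over `(s, t) ∈ ZMod k × ZMod l` (`k l ≤ (2 r)^2` elements) of the sets `{g ∈ Gc | ¬ Gd (cl k s) (cl l t) (L s t) g}`; each has, with `good_one`, `LL_adm`, `bad_count`, at most `16 r^2 |Gc| / (q - 1)` elements; `q ≤ 2 (q - 1)`.
-/

set_option autoImplicit false
set_option linter.unusedSectionVars false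

namespace Pool.Agent.H89.UD

open Module Pool.Agent.H32.UD

theorem bad_count {F E : Type} [Field F] [Field E] [Algebra F E] (D : Dat F E) [Finite F] [Finite E]
    (P Q : Set (ZMod (2 * D.r))) (ℓ : Module.End F E →ₗ[F] F)
    (h0 : ∃ X ∈ D.𝔤, Function.Injective (Psi D P Q ℓ 1 X)) (hq : 8 * D.r ^ 2 + 4 * D.r + 1 < Nat.card F) :
    Nat.card {g : E ≃ₗ[F] E // g ∈ D.Gc ∧ ¬ Gd D P Q ℓ g} * (Nat.card F - 1) ≤
      16 * D.r ^ 2 * Nat.card D.Gc := by
  classical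
  have hfin : Finite (Module.End F E) :=
    Finite.of_injective (fun f : Module.End F E => (f : E → E)) DFunLike.coe_injective
  have hfe : Finite (E ≃ₗ[F] E) :=
    Finite.of_injective (fun f : E ≃ₗ[F] E => (f : E → E)) DFunLike.coe_injective
  have c2 := count_one D
  set N := Nat.card D.𝔤 with hN
  have hN0 : 0 < N := Nat.card_pos
  set V' := {X : D.𝔤 // Function.Injective (1 + (X : Module.End F E) : Module.End F E)} with hV'
  have hsplit : Nat.card V' +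
      Nat.card {X : D.𝔤 // ¬ Function.Injective (1 + (X : Module.End F E) : Module.End F E)} = N := by
    rw [hN, ← Nat.card_sum]
    exact Nat.card_congr (Equiv.sumCompl fun X : D.𝔤 =>
      Function.Injective (1 + (X : Module.End F E) : Module.End F E))
  set m := Nat.card {X : D.𝔤 // ¬ Function.Injective (1 + (X : Module.End F E) : Module.End F E)} with hm
  have hr : 0 < D.r := by have := D.four_le; omega
  have hq1 : 4 * D.r ≤ Nat.card F - 1 := by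
    have : 0 ≤ 8 * D.r ^ 2 := Nat.zero_le _
    omega
  have hV2 : N ≤ 2 * Nat.card V' := by
    have h1 : m * (4 * D.r) ≤ 2 * D.r * N := (Nat.mul_le_mul_left m hq1).trans c2
    have h2 : 2 * D.r * (2 * m) ≤ 2 * D.r * N := by
      calc 2 * D.r * (2 * m) = m * (4 * D.r) := by ring
        _ ≤ _ := h1
    have h3 := Nat.le_of_mul_le_mul_left h2 (by omega)
    omega
  have hV0 : 0 < Nat.card V' := by omega
  -- the elements of the chart
  have hex : ∀ X : V', ∃ u : E ≃ₗ[F] E, u ∈ D.Cay ∧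
      (u : Module.End F E) * (1 + ((X : D.𝔤) : Module.End F E)) = 1 - ((X : D.𝔤) : Module.End F E) := by
    intro X
    obtain ⟨u, hu, he⟩ := exists_cay D (X : D.𝔤).2 X.2
    exact ⟨u, hu, he⟩
  choose U hU hUe using hex
  let f : {g : E ≃ₗ[F] E // g ∈ D.Gc ∧ ¬ Gd D P Q ℓ g} × V' →
      Σ h : D.Gc, {X : D.𝔤 // ¬ Function.Injective (Psi D P Q ℓ (h : E ≃ₗ[F] E) (X : Module.End F E))} :=
    fun a => ⟨⟨a.1.1 * (U a.2)⁻¹, D.Gc.mul_mem a.1.2.1
      (D.Gc.inv_mem (Subgroup.subset_closure (hU a.2)))⟩, ⟨a.2.1, by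
        intro hinj
        have h1 := (Psi_inj_iff D P Q ℓ (a.1.1 * (U a.2)⁻¹) (U a.2) a.2.2 (hUe a.2)).1 hinj
        rw [inv_mul_cancel_right] at h1
        exact a.1.2.2 h1⟩⟩
  have hf : Function.Injective f := by
    rintro ⟨⟨g, hg⟩, X⟩ ⟨⟨g', hg'⟩, X'⟩ h
    have h1 : g * (U X)⁻¹ = g' * (U X')⁻¹ :=
      congrArg (fun z : Σ h : D.Gc, {X : D.𝔤 // ¬ Function.Injective
        (Psi D P Q ℓ (h : E ≃ₗ[F] E) (X : Module.End F E))} => (z.1 : E ≃ₗ[F] E)) h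
    have h2 : (X : D.𝔤) = (X' : D.𝔤) :=
      congrArg (fun z : Σ h : D.Gc, {X : D.𝔤 // ¬ Function.Injective
        (Psi D P Q ℓ (h : E ≃ₗ[F] E) (X : Module.End F E))} => (z.2.1 : D.𝔤)) h
    have h3 : X = X' := Subtype.ext h2
    subst h3
    have h4 : g = g' := mul_right_cancel h1
    subst h4
    rfl
  have := Fintype.ofFinite D.Gc
  have h5 := Nat.card_le_card_of_injective f hf
  rw [Nat.card_prod, Nat.card_sigma] at h5
  set B := Nat.card {g : E ≃ₗ[F] E // g ∈ D.Gc ∧ ¬ Gd D P Q ℓ g} with hB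
  have h6 : B * Nat.card V' * (Nat.card F - 1) ≤ Nat.card D.Gc * (8 * D.r ^ 2 * N) := by
    refine (Nat.mul_le_mul_right _ h5).trans ?_
    rw [Finset.sum_mul]
    refine (Finset.sum_le_sum fun (h : D.Gc) _ => count_Psi D P Q ℓ (h : E ≃ₗ[F] E)
      (good_all D P Q ℓ h0 hq (h : E ≃ₗ[F] E) h.2)).trans ?_
    rw [Finset.sum_const, smul_eq_mul, Finset.card_univ, ← Nat.card_eq_fintype_card]
  have h7 : (B * (Nat.card F - 1)) * Nat.card V' ≤ (16 * D.r ^ 2 * Nat.card D.Gc) * Nat.card V' := by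
    calc (B * (Nat.card F - 1)) * Nat.card V' = B * Nat.card V' * (Nat.card F - 1) := by ring
      _ ≤ Nat.card D.Gc * (8 * D.r ^ 2 * N) := h6
      _ ≤ Nat.card D.Gc * (8 * D.r ^ 2 * (2 * Nat.card V')) :=
          Nat.mul_le_mul_left _ (Nat.mul_le_mul_left _ hV2)
      _ = _ := by ring
  exact Nat.le_of_mul_le_mul_right h7 hV0

theorem bad_small (r : ℕ) : ∃ C q0 : ℕ, ∀ (F E : Type) [Field F] [Field E] [Algebra F E] [Finite F] [Finite E]
    (D : Dat F E), D.r = r → q0 ≤ Nat.card F → ∀ k l : ℕ, k.Prime → l.Prime → k ∣ 2 * r → l ∣ 2 * r →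
    ¬ (k = 2 ∧ l = 2) →
    Nat.card {g : E ≃ₗ[F] E // g ∈ D.Gc ∧ ¬ D.Triv k l g} * Nat.card F ≤ C * Nat.card D.Gc := by
  classical
  refine ⟨32 * r ^ 2 * (2 * r) ^ 2, 24 * r ^ 2 + 4 * r + 2, ?_⟩
  intro F E _ _ _ _ _ D hr hq k l hk hl hkr hlr hkl
  subst hr
  have hfe : Finite (E ≃ₗ[F] E) :=
    Finite.of_injective (fun f : E ≃ₗ[F] E => (f : E → E)) DFunLike.coe_injective
  have : NeZero k := ⟨hk.ne_zero⟩
  have : NeZero l := ⟨hl.ne_zero⟩
  have h2r : 0 < 2 * D.r := by have := D.four_le; omega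
  have hkle : k ≤ 2 * D.r := Nat.le_of_dvd h2r hkr
  have hlle : l ≤ 2 * D.r := Nat.le_of_dvd h2r hlr
  choose L hL using fun (s : ZMod k) (t : ZMod l) => exists_LL (F := F) (E := E) k l s t
  have hex : ∀ g : {g : E ≃ₗ[F] E // g ∈ D.Gc ∧ ¬ D.Triv k l g}, ∃ st : ZMod k × ZMod l,
      ¬ Gd D (cl D k st.1) (cl D l st.2) (L st.1 st.2) (g : E ≃ₗ[F] E) := by
    rintro ⟨g, hg, hgT⟩
    by_contra hcon
    push Not at hcon
    exact hgT (Triv_of D hk hl hkr hlr L hL g fun s t => hcon (s, t))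
  choose st hst using hex
  let f : {g : E ≃ₗ[F] E // g ∈ D.Gc ∧ ¬ D.Triv k l g} → Σ st : ZMod k × ZMod l,
      {g : E ≃ₗ[F] E // g ∈ D.Gc ∧ ¬ Gd D (cl D k st.1) (cl D l st.2) (L st.1 st.2) g} :=
    fun g => ⟨st g, ⟨g.1, g.2.1, hst g⟩⟩
  have hf : Function.Injective f := by
    intro g g' h
    have h1 : (g : E ≃ₗ[F] E) = (g' : E ≃ₗ[F] E) :=
      congrArg (fun z : Σ st : ZMod k × ZMod l,
        {g : E ≃ₗ[F] E // g ∈ D.Gc ∧ ¬ Gd D (cl D k st.1) (cl D l st.2) (L st.1 st.2) g} =>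
          (z.2.1 : E ≃ₗ[F] E)) h
    exact Subtype.ext h1
  have h5 := Nat.card_le_card_of_injective f hf
  rw [Nat.card_sigma] at h5
  set S := Nat.card {g : E ≃ₗ[F] E // g ∈ D.Gc ∧ ¬ D.Triv k l g} with hS
  have hq1 : 24 * D.r ^ 2 < Nat.card F := by omega
  have hq2 : 8 * D.r ^ 2 + 4 * D.r + 1 < Nat.card F := by omega
  have hone : ∀ st : ZMod k × ZMod l,
      Nat.card {g : E ≃ₗ[F] E // g ∈ D.Gc ∧ ¬ Gd D (cl D k st.1) (cl D l st.2) (L st.1 st.2) g} *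
        (Nat.card F - 1) ≤ 16 * D.r ^ 2 * Nat.card D.Gc := by
    intro st
    exact bad_count D (cl D k st.1) (cl D l st.2) (L st.1 st.2)
      (good_one D hk hl hkr hlr hkl st.1 st.2 (L st.1 st.2)
        (LL_adm D hkr hlr st.1 st.2 (L st.1 st.2) (hL st.1 st.2)) hq1) hq2
  obtain ⟨W, hW⟩ : ∃ W, W = 16 * D.r ^ 2 * Nat.card D.Gc := ⟨_, rfl⟩
  simp only [← hW] at hone
  have h6 : S * (Nat.card F - 1) ≤ (k * l) * W := by
    refine (Nat.mul_le_mul_right _ h5).trans ?_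
    rw [Finset.sum_mul]
    refine (Finset.sum_le_sum fun st _ => hone st).trans ?_
    rw [Finset.sum_const, smul_eq_mul, Finset.card_univ, Fintype.card_prod, ZMod.card, ZMod.card]
  have h7 : k * l ≤ (2 * D.r) ^ 2 := by
    rw [pow_two]
    exact Nat.mul_le_mul hkle hlle
  have h8 : Nat.card F ≤ 2 * (Nat.card F - 1) := by omega
  calc S * Nat.card F ≤ S * (2 * (Nat.card F - 1)) := Nat.mul_le_mul_left _ h8
    _ = 2 * (S * (Nat.card F - 1)) := by ring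
    _ ≤ 2 * ((k * l) * W) := Nat.mul_le_mul_left _ h6
    _ ≤ 2 * ((2 * D.r) ^ 2 * W) :=
        Nat.mul_le_mul_left _ (Nat.mul_le_mul_right _ h7)
    _ = _ := by rw [hW]; ring

end Pool.Agent.H89.UD
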