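import Mathlib

/-!
# Aff : counting the singular members of an affine family of linear maps

PROOFS. `line_count`: for `τ ≠ 0` the map `Y ↦ X₀ + τ Y` is a bijection of `V`, so `(q - 1) * #{X | f X = 0} = ∑_{τ ≠ 0} #{Y | f (X₀ + τ Y) = 0} = ∑_Y #{τ ≠ 0 | f (X₀ + τ Y) = 0}`, and for each `Y` the polynomial `p` of `hf Y` is nonzero since `p.eval 0 = f X₀ ≠ 0`, so it has at most `d` roots
(`Polynomial.card_roots'`). (Use `Fintype.ofFinite`, `Finset.sum_comm`, indicator sums, or an injection from `{X // f X = 0} × Fˣ` into `Σ Y : V, {τ // p_Y.eval τ = 0}`, `(X, u) ↦ (u⁻¹ (X - X₀), u)`.)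
`det_line`: choose a basis; `LinearMap.det (A + τ B) = det (a + τ b)` for the matrices; `p = det (a.map C + X • b.map C)`: `natDegree p ≤ card` (e.g. `Polynomial.natDegree_det_X_add_C_le`: `natDegree (det ((X : R[X]) • A.map C + B.map C)) ≤ Fintype.card n`), evaluation commutes with `det` (`RingHom.map_det` for `evalRingHom τ`).
`affine_count`: let `π` be a left inverse of `Ψ X₀` (`LinearMap.exists_leftInverse_of_injective`), `f X = LinearMap.det (π ∘ₗ Ψ X)`: `f X₀ = det id = 1`. If `Ψ X` is not injective then `f X = 0` (a linear endomorphism with nonzero determinant is injective: `LinearMap.bot_lt_ker_of_det_eq_zero` is the converse; use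
`LinearMap.equivOfDetNeZero` or `LinearMap.isUnit_iff_isUnit_det`). `f (X₀ + τ Y) = det (π ∘ Ψ X₀ + τ π ∘ B)`: `det_line` gives the polynomial. Apply `line_count` and `Nat.card` monotone (`Nat.card_le_card_of_injective`).
-/

set_option autoImplicit false

namespace Pool.Agent.H89.UD

open Module

theorem line_count {F V : Type} [Field F] [Finite F] [AddCommGroup V] [Module F V] [Finite V] (d : ℕ)
    (f : V → F) (X₀ : V) (h0 : f X₀ ≠ 0)
    (hf : ∀ Y : V, ∃ p : Polynomial F, p.natDegree ≤ d ∧ ∀ τ : F, p.eval τ = f (X₀ + τ • Y)) :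
    Nat.card {X : V // f X = 0} * (Nat.card F - 1) ≤ d * Nat.card V := by
  classical
  choose p hp1 hp2 using hf
  have := Fintype.ofFinite F
  have := Fintype.ofFinite V
  have hp0 : ∀ Y, p Y ≠ 0 := by
    intro Y h
    have h1 := hp2 Y 0
    rw [h, zero_smul, add_zero, Polynomial.eval_zero] at h1
    exact h0 h1.symm
  have hmem : ∀ z : {X : V // f X = 0} × Fˣ,
      (z.2 : F) ∈ (p (((z.2⁻¹ : Fˣ) : F) • (z.1.1 - X₀))).roots.toFinset := by
    intro z
    rw [Multiset.mem_toFinset, Polynomial.mem_roots (hp0 _), Polynomial.IsRoot.def, hp2, smul_smul,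
      Units.mul_inv, one_smul, add_sub_cancel]
    exact z.1.2
  let φ : {X : V // f X = 0} × Fˣ → (Σ Y : V, {τ : F // τ ∈ (p Y).roots.toFinset}) := fun z =>
    ⟨((z.2⁻¹ : Fˣ) : F) • (z.1.1 - X₀), ⟨(z.2 : F), hmem z⟩⟩
  have hφ : Function.Injective φ := by
    intro z z' h
    have h1 : (φ z).1 = (φ z').1 := congrArg Sigma.fst h
    have h2 : ((φ z).2 : F) = ((φ z').2 : F) := by rw [h]
    have h3 : z.2 = z'.2 := Units.ext h2
    have h4 : ((z.2⁻¹ : Fˣ) : F) • (z.1.1 - X₀) = ((z'.2⁻¹ : Fˣ) : F) • (z'.1.1 - X₀) := h1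
    have h5 : z.1 = z'.1 := by
      apply Subtype.ext
      rw [← h3] at h4
      have h6 := congrArg (fun v => (z.2 : F) • v) h4
      simp only [smul_smul, Units.mul_inv, one_smul] at h6
      exact sub_left_injective h6
    exact Prod.ext h5 h3
  have hc := Nat.card_le_card_of_injective φ hφ
  rw [Nat.card_prod, Nat.card_units] at hc
  refine hc.trans ?_
  rw [Nat.card_eq_fintype_card, Fintype.card_sigma, Nat.card_eq_fintype_card (α := V)]
  have hle : ∀ Y ∈ (Finset.univ : Finset V), Fintype.card {τ : F // τ ∈ (p Y).roots.toFinset} ≤ d := by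
    intro Y _
    rw [Fintype.card_coe]
    exact (Multiset.toFinset_card_le _).trans ((Polynomial.card_roots' _).trans (hp1 Y))
  refine (Finset.sum_le_card_nsmul _ _ d hle).trans ?_
  rw [Finset.card_univ, smul_eq_mul, mul_comm]

theorem det_line {F S : Type} [Field F] [AddCommGroup S] [Module F S] [FiniteDimensional F S]
    (A B : S →ₗ[F] S) :
    ∃ p : Polynomial F, p.natDegree ≤ finrank F S ∧ ∀ τ : F, p.eval τ = LinearMap.det (A + τ • B) := by
  classical
  let b := Module.finBasis F S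
  let MA := LinearMap.toMatrix b b A
  let MB := LinearMap.toMatrix b b B
  refine ⟨((Polynomial.X : Polynomial F) • MB.map Polynomial.C + MA.map Polynomial.C).det, ?_, fun τ => ?_⟩
  · exact (Polynomial.natDegree_det_X_add_C_le MB MA).trans (by rw [Fintype.card_fin])
  · have h1 := (Polynomial.evalRingHom τ).map_det
      ((Polynomial.X : Polynomial F) • MB.map Polynomial.C + MA.map Polynomial.C)
    rw [Polynomial.coe_evalRingHom] at h1
    rw [h1, ← LinearMap.det_toMatrix b]
    congr 1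
    ext i j
    simp [MA, MB, Matrix.map_apply]
    ring

theorem affine_count {F V S T : Type} [Field F] [Finite F] [AddCommGroup V] [Module F V] [Finite V]
    [AddCommGroup S] [Module F S] [FiniteDimensional F S] [AddCommGroup T] [Module F T]
    (Ψ : V → S →ₗ[F] T) (X₀ : V) (h0 : Function.Injective (Ψ X₀))
    (hΨ : ∀ Y : V, ∃ B : S →ₗ[F] T, ∀ τ : F, Ψ (X₀ + τ • Y) = Ψ X₀ + τ • B) :
    Nat.card {X : V // ¬ Function.Injective (Ψ X)} * (Nat.card F - 1) ≤ finrank F S * Nat.card V := by
  classical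
  obtain ⟨π, hπ⟩ := LinearMap.exists_leftInverse_of_injective (Ψ X₀) (LinearMap.ker_eq_bot.2 h0)
  have hinj : ∀ X, ¬ Function.Injective (Ψ X) → LinearMap.det (π ∘ₗ Ψ X) = 0 := by
    intro X hX
    by_contra hne
    apply hX
    have h1 : Function.Injective (π ∘ₗ Ψ X) := by
      have h2 := (LinearMap.equivOfDetNeZero (π ∘ₗ Ψ X) hne).injective
      intro a b hab
      exact h2 hab
    intro a b hab
    exact h1 (by rw [LinearMap.comp_apply, LinearMap.comp_apply, hab])
  have hc : Nat.card {X : V // ¬ Function.Injective (Ψ X)} ≤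
      Nat.card {X : V // LinearMap.det (π ∘ₗ Ψ X) = 0} := by
    apply Nat.card_le_card_of_injective (fun X : {X : V // ¬ Function.Injective (Ψ X)} =>
      (⟨X.1, hinj X.1 X.2⟩ : {X : V // LinearMap.det (π ∘ₗ Ψ X) = 0}))
    intro X Y h
    apply Subtype.ext
    exact congrArg (fun z : {X : V // LinearMap.det (π ∘ₗ Ψ X) = 0} => z.1) h
  refine (Nat.mul_le_mul_right _ hc).trans ?_
  apply line_count (finrank F S) (fun X => LinearMap.det (π ∘ₗ Ψ X)) X₀
  · show LinearMap.det (π ∘ₗ Ψ X₀) ≠ 0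
    rw [hπ, LinearMap.det_id]
    exact one_ne_zero
  · intro Y
    obtain ⟨B, hB⟩ := hΨ Y
    obtain ⟨p, hp1, hp2⟩ := det_line (π ∘ₗ Ψ X₀) (π ∘ₗ B)
    refine ⟨p, hp1, fun τ => ?_⟩
    rw [hp2, hB, LinearMap.comp_add, LinearMap.comp_smul]

end Pool.Agent.H89.UD
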