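import Pool.Agent.H89.UD.Defs

/-!
# Cay : the Cayley transform

PROOFS. `cay_form`: `B((1-X)w, (1-X)w') = B(w,w') - (B(Xw,w') + B(w,Xw')) + B(Xw,Xw')` and the same with `1 + X`, `mem_𝔤`. `exists_cay`: `1 + X` is injective, hence bijective (`LinearMap.injective_iff_surjective`, finite dimension by `Module.Finite` from `Finite E`). `1 - X` is injective: if `(1-X) w = 0`
then `B((1+X)w, (1+X)w') = 0` for all `w'` by `cay_form`, so `(1+X) w = 0` (`B_nondeg`, surjectivity), `w = 0`. Let `u = (1 - X) ∘ (1 + X)⁻¹` as a linear equivalence (`LinearEquiv.ofBijective` / `LinearEquiv.ofInjectiveEndo`). Isometry: `cay_form` for `w = (1+X)⁻¹ x`. If `u x = -x` with `x = (1+X) w` then `(1-X) w = -(1+X) w`, `2 w = 0`.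
`exists_log`: `1 + u` is injective (`u x = -x` only for `x = 0`), hence bijective; `X = (1 - u) (1 + u)⁻¹`; `u` commutes with it. `B(X x, y) + B(x, X y)` for `x = (1+u)w`, `y = (1+u)w'` is `B((1-u)w,(1+u)w') + B((1+u)w,(1-u)w') = 2 B(w,w') - 2 B(u w, u w') = 0`. `(1 + X)(1 + u) = 2`, so `1 + X` is injective; `u (1 + X) (1 + u) = 2 u = (1 - X)(1 + u)`
since `(1 - X)(1 + u) = (1 + u) - (1 - u) = 2 u`; cancel the surjective `1 + u` on the right. `cay_unique`: `1 + X` is surjective. `Cay_inv`: `u⁻¹ x = -x` implies `x = -u x`. `Cay_quot`: `u⁻¹ v ∈ G`; if `u⁻¹ v x = -x`, write `x = (1+X) w`: `v x = (1 - X) w`, so `((1+X) + u⁻¹ (1-X)) w = 0`, `w = 0`.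
`cay_self`: at `X` with `u (1 + X) = 1 - X` the map is `(1 + X) + u⁻¹ (1 - X) = 2 (1 + X)`.
-/

set_option autoImplicit false
set_option linter.unusedSectionVars false

namespace Pool.Agent.H89.UD

open Module Pool.Agent.H32.UD

variable {F E : Type} [Field F] [Field E] [Algebra F E] (D : Dat F E) [Finite F] [Finite E]

include D in
private theorem Cay_two {w : E} (h : w + w = 0) : w = 0 := by
  have h1 : (2 : F) • w = 0 := by rw [two_smul]; exact h
  exact (smul_eq_zero.1 h1).resolve_left D.two_ne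

private theorem Cay_pt {X : Module.End F E} {u : E ≃ₗ[F] E} (h : (u : Module.End F E) * (1 + X) = 1 - X)
    (w : E) : u (w + X w) = w - X w := by
  have h1 := LinearMap.congr_fun h w
  simpa using h1

private theorem Cay_surj {X : Module.End F E} (h1 : Function.Injective (1 + X : Module.End F E)) (x : E) :
    ∃ w, w + X w = x := by
  obtain ⟨w, hw⟩ := LinearMap.surjective_of_injective h1 x
  exact ⟨w, by simpa using hw⟩

theorem cay_form {X : Module.End F E} (hX : X ∈ D.𝔤) (w w' : E) :
    D.B ((1 - X) w) ((1 - X) w') = D.B ((1 + X) w) ((1 + X) w') := by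
  have h := hX w w'
  simp only [LinearMap.sub_apply, LinearMap.add_apply, Module.End.one_apply, map_sub, map_add]
  linear_combination (-2) * h

theorem exists_cay {X : Module.End F E} (hX : X ∈ D.𝔤) (h1 : Function.Injective (1 + X : Module.End F E)) :
    ∃ u ∈ D.Cay, (u : Module.End F E) * (1 + X) = 1 - X := by
  have h2 : Function.Injective (1 - X : Module.End F E) := by
    rw [injective_iff_map_eq_zero]
    intro w hw
    have h3 : (1 + X : Module.End F E) w = 0 := by
      apply D.B_nondeg
      intro y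
      obtain ⟨w', hw'⟩ := LinearMap.surjective_of_injective h1 y
      rw [← hw', ← cay_form D hX, hw, map_zero, LinearMap.zero_apply]
    exact (injective_iff_map_eq_zero _).1 h1 w h3
  let e := LinearEquiv.ofInjectiveEndo (1 + X) h1
  let e' := LinearEquiv.ofInjectiveEndo (1 - X) h2
  have he : ∀ w, e w = (1 + X : Module.End F E) w := fun w => rfl
  have he' : ∀ w, e' w = (1 - X : Module.End F E) w := fun w => rfl
  have hu : ((e.symm.trans e' : E ≃ₗ[F] E) : Module.End F E) * (1 + X) = 1 - X := by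
    refine LinearMap.ext fun w => ?_
    show e' (e.symm ((1 + X : Module.End F E) w)) = _
    rw [← he, LinearEquiv.symm_apply_apply, he']
  have hpt := Cay_pt hu
  refine ⟨e.symm.trans e', ⟨?_, ?_⟩, hu⟩
  · intro x y
    obtain ⟨w, rfl⟩ := Cay_surj h1 x
    obtain ⟨w', rfl⟩ := Cay_surj h1 y
    rw [hpt, hpt]
    have h := cay_form D hX w w'
    simpa using h
  · intro x hx
    obtain ⟨w, rfl⟩ := Cay_surj h1 x
    rw [hpt] at hx
    have h4 : w + w = 0 := by
      have h5 : w - X w + (w + X w) = 0 := by rw [hx]; abel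
      rw [← h5]; abel
    rw [Cay_two D h4]
    simp

theorem exists_log {u : E ≃ₗ[F] E} (hu : u ∈ D.Cay) :
    ∃ X ∈ D.𝔤, Function.Injective (1 + X : Module.End F E) ∧ (u : Module.End F E) * (1 + X) = 1 - X := by
  have h1 : Function.Injective (1 + (u : Module.End F E) : Module.End F E) := by
    rw [injective_iff_map_eq_zero]
    intro w hw
    refine hu.2 w ?_
    have h2 : w + u w = 0 := by simpa using hw
    exact eq_neg_of_add_eq_zero_right h2
  let e := LinearEquiv.ofInjectiveEndo (1 + (u : Module.End F E)) h1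
  have he : ∀ w, e w = w + u w := fun w => by
    show (1 + (u : Module.End F E) : Module.End F E) w = _
    simp
  have hsur : ∀ x, ∃ w, w + u w = x := fun x => ⟨e.symm x, by rw [← he, LinearEquiv.apply_symm_apply]⟩
  let X : Module.End F E := (1 - (u : Module.End F E)) * (e.symm : Module.End F E)
  have hX : ∀ w, X (w + u w) = w - u w := by
    intro w
    show (1 - (u : Module.End F E) : Module.End F E) (e.symm (w + u w)) = _
    rw [← he, LinearEquiv.symm_apply_apply]
    simp
  refine ⟨X, ?_, ?_, ?_⟩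
  · intro x y
    obtain ⟨w, rfl⟩ := hsur x
    obtain ⟨w', rfl⟩ := hsur y
    rw [hX, hX]
    have h := hu.1 w w'
    simp only [map_sub, map_add, LinearMap.sub_apply, LinearMap.add_apply]
    linear_combination (-2) * h
  · rw [injective_iff_map_eq_zero]
    intro x hx
    obtain ⟨w, rfl⟩ := hsur x
    have h2 : w + u w + X (w + u w) = 0 := by simpa using hx
    rw [hX] at h2
    have h4 : w + w = 0 := by rw [← h2]; abel
    rw [Cay_two D h4]
    simp
  · refine LinearMap.ext fun x => ?_
    obtain ⟨w, rfl⟩ := hsur x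
    show u ((1 + X : Module.End F E) (w + u w)) = (1 - X : Module.End F E) (w + u w)
    rw [LinearMap.add_apply, LinearMap.sub_apply, Module.End.one_apply, hX]
    have h5 : w + u w + (w - u w) = w + w := by abel
    rw [h5, map_add]
    abel

theorem cay_unique {X : Module.End F E} (h1 : Function.Injective (1 + X : Module.End F E))
    {u v : E ≃ₗ[F] E} (hu : (u : Module.End F E) * (1 + X) = 1 - X)
    (hv : (v : Module.End F E) * (1 + X) = 1 - X) : u = v := by
  refine LinearEquiv.ext fun x => ?_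
  obtain ⟨w, rfl⟩ := Cay_surj h1 x
  rw [Cay_pt hu, Cay_pt hv]

theorem Cay_inv {u : E ≃ₗ[F] E} (hu : u ∈ D.Cay) : u⁻¹ ∈ D.Cay := by
  refine ⟨D.G.inv_mem hu.1, fun x hx => hu.2 x ?_⟩
  have h1 : u (u⁻¹ x) = x := by
    rw [← LinearEquiv.mul_apply, mul_inv_cancel]
    rfl
  rw [hx, map_neg] at h1
  rw [← neg_eq_iff_eq_neg]
  exact h1

theorem Cay_quot {X : Module.End F E} (h1 : Function.Injective (1 + X : Module.End F E))
    {u v : E ≃ₗ[F] E} (hu : u ∈ D.Cay) (hv : v ∈ D.Cay) (hvX : (v : Module.End F E) * (1 + X) = 1 - X)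
    (h2 : Function.Injective ((1 + X) + ((u⁻¹ : E ≃ₗ[F] E) : Module.End F E) * (1 - X) : Module.End F E)) :
    u⁻¹ * v ∈ D.Cay := by
  refine ⟨D.G.mul_mem (D.G.inv_mem hu.1) hv.1, fun x hx => ?_⟩
  obtain ⟨w, rfl⟩ := Cay_surj h1 x
  rw [LinearEquiv.mul_apply, Cay_pt hvX] at hx
  have h3 : ((1 + X) + ((u⁻¹ : E ≃ₗ[F] E) : Module.End F E) * (1 - X) : Module.End F E) w = 0 := by
    show (1 + X : Module.End F E) w + u⁻¹ ((1 - X : Module.End F E) w) = 0
    rw [LinearMap.add_apply, LinearMap.sub_apply, Module.End.one_apply, hx]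
    abel
  have h4 := (injective_iff_map_eq_zero _).1 h2 w h3
  rw [h4]
  simp

include D in
theorem cay_self {X : Module.End F E} (h1 : Function.Injective (1 + X : Module.End F E))
    {u : E ≃ₗ[F] E} (hu : (u : Module.End F E) * (1 + X) = 1 - X) :
    Function.Injective ((1 + X) + ((u⁻¹ : E ≃ₗ[F] E) : Module.End F E) * (1 - X) : Module.End F E) := by
  rw [injective_iff_map_eq_zero]
  intro w hw
  have h2 : u⁻¹ ((1 - X : Module.End F E) w) = w + X w := by
    have h3 : (1 - X : Module.End F E) w = u (w + X w) := by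
      rw [Cay_pt hu]
      simp
    rw [h3, ← LinearEquiv.mul_apply, inv_mul_cancel]
    rfl
  have h4 : (1 + X : Module.End F E) w + u⁻¹ ((1 - X : Module.End F E) w) = 0 := hw
  rw [h2, LinearMap.add_apply, Module.End.one_apply] at h4
  have h5 : (1 + X : Module.End F E) w = 0 := by
    rw [LinearMap.add_apply, Module.End.one_apply]
    exact Cay_two D h4
  exact (injective_iff_map_eq_zero _).1 h1 w h5

end Pool.Agent.H89.UD
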