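import Pool.Agent.H32.UD.Min

/-!
# Onep : perturbation of a linear map in one parameter

PROOF. Choose bases, so that `A0, A2, A3` become matrices `a0, a2, a3 : Matrix (Fin m) (Fin n) F`, `n = finrank F S`, and let `M = a0.map C + X ^ 2 • a2.map C + X ^ 3 • a3.map C` over `F[X]`.
(1) There is `s : Fin n → Fin m` with `det (M.submatrix s id) ≠ 0`. Otherwise, by `exists_rows` (contrapositive) over the field of fractions `K` of `F[X]` (`RatFunc F` or `FractionRing F[X]`; `det` commutes with `algebraMap`, which is injective) there is `v ≠ 0` in `K^n` with `M v = 0`; multiply by a common denominator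
(`IsLocalization.exist_integer_multiples_of_finset` or `..._of_finite`): `w ≠ 0` in `F[X]^n`, `M w = 0`. Choose `w` with `∑ i, natDegree (w i)` minimal. If all constant coefficients `(w i).coeff 0` vanish then `w = X • w'`, `M w' = 0`, `w' ≠ 0`, and the sum of the degrees of `w'` is smaller
(`natDegree (X * p) = natDegree p + 1` for `p ≠ 0`), contradiction. So the vector `v0 = ((w i).coeff 0)_i` is not zero; with `v1, v2, v3` the vectors of the coefficients of degree `1, 2, 3` the coefficients of degree `0, 1, 2, 3` of `M w = 0` are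
`a0 v0 = 0`, `a0 v1 = 0`, `a0 v2 + a2 v0 = 0`, `a0 v3 + a2 v1 + a3 v0 = 0`, so `h` gives `v0 = 0`, a contradiction.
(2) `p = det (M.submatrix s id)` has `natDegree ≤ 3 n` (entries have degree `≤ 3`; `Matrix.det_apply`, `natDegree_sum_le_of_forall_le`, `natDegree_prod_le`), is nonzero and has at most `3 n < q` roots, so there is `τ` with `p.eval τ ≠ 0` (`Polynomial.card_roots'` against `Nat.card F`; the field is finite or infinite).
The evaluation of `M` at `τ` is the matrix of `A0 + τ ^ 2 • A2 + τ ^ 3 • A3`, it has an invertible `n × n` submatrix, so it is injective.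
-/

set_option autoImplicit false

namespace Pool.Agent.H89.UD

open Module Pool.Agent.H32.UD

open Polynomial in
/-- the matrix of the perturbed map over `F[X]` -/
private noncomputable def MX {F : Type} [Field F] {m n : ℕ} (a0 a2 a3 : Matrix (Fin m) (Fin n) F) :
    Matrix (Fin m) (Fin n) F[X] :=
  Matrix.of fun j i => C (a0 j i) + X ^ 2 * C (a2 j i) + X ^ 3 * C (a3 j i)

open Polynomial in
private theorem MX_apply {F : Type} [Field F] {m n : ℕ} (a0 a2 a3 : Matrix (Fin m) (Fin n) F)
    (j : Fin m) (i : Fin n) :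
    MX a0 a2 a3 j i = C (a0 j i) + X ^ 2 * C (a2 j i) + X ^ 3 * C (a3 j i) := rfl

open Polynomial in
private theorem coeff_MX_mul {F : Type} [Field F] {m n : ℕ} (a0 a2 a3 : Matrix (Fin m) (Fin n) F)
    (j : Fin m) (i : Fin n) (w : F[X]) (t : ℕ) :
    (MX a0 a2 a3 j i * w).coeff t = a0 j i * w.coeff t +
      (if 2 ≤ t then a2 j i * w.coeff (t - 2) else 0) +
      (if 3 ≤ t then a3 j i * w.coeff (t - 3) else 0) := by
  rw [MX_apply, add_mul, add_mul, coeff_add, coeff_add, coeff_C_mul, mul_assoc, mul_assoc,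
    coeff_X_pow_mul', coeff_X_pow_mul', coeff_C_mul, coeff_C_mul]

open Polynomial in
private theorem MX_inj {F : Type} [Field F] {m n : ℕ} (a0 a2 a3 : Matrix (Fin m) (Fin n) F)
    (h : ∀ v0 v1 v2 v3 : Fin n → F, a0.mulVec v0 = 0 → a0.mulVec v1 = 0 →
      a0.mulVec v2 + a2.mulVec v0 = 0 → a0.mulVec v3 + a2.mulVec v1 + a3.mulVec v0 = 0 → v0 = 0)
    (w : Fin n → F[X]) (hw : (MX a0 a2 a3).mulVec w = 0) : w = 0 := by
  have base : ∀ w : Fin n → F[X], (MX a0 a2 a3).mulVec w = 0 → ∀ i, (w i).coeff 0 = 0 := by
    intro w hw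
    have hc : ∀ (t : ℕ) (j : Fin m), ∑ i, (MX a0 a2 a3 j i * w i).coeff t = 0 := by
      intro t j
      have h1 := congrFun hw j
      have h2 := congrArg (fun p => Polynomial.coeff p t) h1
      simp only [Matrix.mulVec, dotProduct, Pi.zero_apply, coeff_zero, finsetSum_coeff] at h2
      exact h2
    have h0 := h (fun i => (w i).coeff 0) (fun i => (w i).coeff 1) (fun i => (w i).coeff 2)
      (fun i => (w i).coeff 3) ?_ ?_ ?_ ?_
    · intro i
      exact congrFun h0 i
    · funext j
      have h1 := hc 0 j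
      simp only [coeff_MX_mul] at h1
      simpa [Matrix.mulVec, dotProduct] using h1
    · funext j
      have h1 := hc 1 j
      simp only [coeff_MX_mul] at h1
      simpa [Matrix.mulVec, dotProduct] using h1
    · funext j
      have h1 := hc 2 j
      simp only [coeff_MX_mul] at h1
      simpa [Matrix.mulVec, dotProduct, Finset.sum_add_distrib] using h1
    · funext j
      have h1 := hc 3 j
      simp only [coeff_MX_mul] at h1
      simpa [Matrix.mulVec, dotProduct, Finset.sum_add_distrib] using h1
  have step : ∀ k : ℕ, ∀ w : Fin n → F[X], (MX a0 a2 a3).mulVec w = 0 → ∀ i, (w i).coeff k = 0 := by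
    intro k
    induction k with
    | zero => exact base
    | succ k ih =>
      intro w hw i
      have h1 : ∀ i, X * (w i).divX = w i := by
        intro i
        have h2 := X_mul_divX_add (w i)
        rwa [base w hw i, C_0, add_zero] at h2
      have h2 : (MX a0 a2 a3).mulVec (fun i => (w i).divX) = 0 := by
        funext j
        have h3 := congrFun hw j
        simp only [Matrix.mulVec, dotProduct, Pi.zero_apply] at h3 ⊢
        have h4 : X * ∑ i, MX a0 a2 a3 j i * (w i).divX = 0 := by
          rw [← h3, Finset.mul_sum]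
          refine Finset.sum_congr rfl fun i _ => ?_
          conv_rhs => rw [← h1 i]
          ring
        exact (mul_eq_zero.1 h4).resolve_left X_ne_zero
      have h3 := ih _ h2 i
      rwa [coeff_divX] at h3
  funext i
  ext k
  rw [step k w hw i]
  simp

open Polynomial in
private theorem MX_deg {F : Type} [Field F] {m n : ℕ} (a0 a2 a3 : Matrix (Fin m) (Fin n) F)
    (j : Fin m) (i : Fin n) : (MX a0 a2 a3 j i).natDegree ≤ 3 := by
  rw [MX_apply]
  compute_degree

open Polynomial in
private theorem det_deg {F : Type} [Field F] {m n : ℕ} (a0 a2 a3 : Matrix (Fin m) (Fin n) F)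
    (s : Fin n → Fin m) : ((MX a0 a2 a3).submatrix s id).det.natDegree ≤ 3 * n := by
  rw [Matrix.det_apply]
  refine natDegree_sum_le_of_forall_le _ _ fun σ _ => ?_
  have h1 : (∏ i, (MX a0 a2 a3).submatrix s id (σ i) i).natDegree ≤ 3 * n := by
    refine (natDegree_prod_le _ _).trans ?_
    refine (Finset.sum_le_sum (g := fun _ => 3) fun i _ => MX_deg a0 a2 a3 (s (σ i)) i).trans ?_
    simp [mul_comm]
  rcases Int.units_eq_one_or (Equiv.Perm.sign σ) with h2 | h2
  · rw [h2, one_smul]
    exact h1
  · rw [h2, Units.neg_smul, one_smul, natDegree_neg]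
    exact h1

open Polynomial in
private theorem exists_det {F : Type} [Field F] {m n : ℕ} (a0 a2 a3 : Matrix (Fin m) (Fin n) F)
    (h : ∀ v0 v1 v2 v3 : Fin n → F, a0.mulVec v0 = 0 → a0.mulVec v1 = 0 →
      a0.mulVec v2 + a2.mulVec v0 = 0 → a0.mulVec v3 + a2.mulVec v1 + a3.mulVec v0 = 0 → v0 = 0) :
    ∃ s : Fin n → Fin m, ((MX a0 a2 a3).submatrix s id).det ≠ 0 := by
  have hK : ∀ v : Fin n → FractionRing F[X],
      ((MX a0 a2 a3).map (algebraMap F[X] (FractionRing F[X]))).mulVec v = 0 → v = 0 := by
    intro v hv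
    obtain ⟨b, hb⟩ := IsLocalization.exist_integer_multiples_of_finite (nonZeroDivisors F[X]) v
    choose w hw using hb
    have hinj := IsFractionRing.injective F[X] (FractionRing F[X])
    have hb0 : algebraMap F[X] (FractionRing F[X]) (b : F[X]) ≠ 0 := by
      intro hb1
      have hb2 : (b : F[X]) = 0 := hinj (by rw [hb1, map_zero])
      exact nonZeroDivisors.ne_zero b.2 hb2
    have hM : (MX a0 a2 a3).mulVec w = 0 := by
      funext j
      apply hinj
      have h1 := congrFun hv j
      simp only [Matrix.mulVec, dotProduct, Matrix.map_apply, Pi.zero_apply] at h1 ⊢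
      rw [map_sum, map_zero]
      have h2 : ∀ i, algebraMap F[X] (FractionRing F[X]) (MX a0 a2 a3 j i * w i) =
          algebraMap F[X] (FractionRing F[X]) (b : F[X]) *
            (algebraMap F[X] (FractionRing F[X]) (MX a0 a2 a3 j i) * v i) := by
        intro i
        rw [map_mul, hw i, Algebra.smul_def]
        ring
      rw [Finset.sum_congr rfl fun i _ => h2 i, ← Finset.mul_sum, h1, mul_zero]
    have hw0 := MX_inj a0 a2 a3 h w hM
    funext i
    have h3 := hw i
    rw [hw0, Pi.zero_apply, map_zero, Algebra.smul_def] at h3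
    exact (mul_eq_zero.1 h3.symm).resolve_left hb0
  obtain ⟨s, hs⟩ := exists_rows _ hK
  refine ⟨s, fun h0 => hs ?_⟩
  have h4 : ((MX a0 a2 a3).map (algebraMap F[X] (FractionRing F[X]))).submatrix s id =
      ((MX a0 a2 a3).submatrix s id).map (algebraMap F[X] (FractionRing F[X])) := rfl
  rw [h4]
  have h5 := RingHom.map_det (algebraMap F[X] (FractionRing F[X])) ((MX a0 a2 a3).submatrix s id)
  rw [h0, map_zero] at h5
  exact h5.symm

theorem one_param {F S T : Type} [Field F] [Finite F] [AddCommGroup S] [Module F S] [FiniteDimensional F S]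
    [AddCommGroup T] [Module F T] [FiniteDimensional F T] (A0 A2 A3 : S →ₗ[F] T)
    (h : ∀ v0 v1 v2 v3 : S, A0 v0 = 0 → A0 v1 = 0 → A0 v2 + A2 v0 = 0 → A0 v3 + A2 v1 + A3 v0 = 0 → v0 = 0)
    (hq : 3 * finrank F S < Nat.card F) :
    ∃ τ : F, Function.Injective (A0 + τ ^ 2 • A2 + τ ^ 3 • A3) := by
  classical
  set bS := Module.finBasis F S with hbS
  set bT := Module.finBasis F T with hbT
  set a0 := LinearMap.toMatrix bS bT A0 with ha0
  set a2 := LinearMap.toMatrix bS bT A2 with ha2
  set a3 := LinearMap.toMatrix bS bT A3 with ha3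
  have hrep : ∀ (A : S →ₗ[F] T) (v : Fin (finrank F S) → F),
      (LinearMap.toMatrix bS bT A).mulVec v = bT.repr (A (bS.equivFun.symm v)) := by
    intro A v
    have h1 := LinearMap.toMatrix_mulVec_repr bS bT A (bS.equivFun.symm v)
    rw [← h1]
    congr 1
    exact (bS.equivFun.apply_symm_apply v).symm
  obtain ⟨s, hs⟩ := exists_det a0 a2 a3 (by
    intro v0 v1 v2 v3 h1 h2 h3 h4
    have hz : ∀ x : T, (⇑(bT.repr x) : Fin (finrank F T) → F) = 0 → x = 0 := by
      intro x hx
      have : bT.repr x = 0 := DFunLike.coe_injective (by rw [hx]; rfl)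
      simpa using this
    have h5 := h (bS.equivFun.symm v0) (bS.equivFun.symm v1) (bS.equivFun.symm v2)
      (bS.equivFun.symm v3) ?_ ?_ ?_ ?_
    · exact (LinearEquiv.map_eq_zero_iff _).1 h5
    · apply hz
      rw [← hrep]
      exact h1
    · apply hz
      rw [← hrep]
      exact h2
    · apply hz
      rw [map_add, Finsupp.coe_add, ← hrep, ← hrep]
      exact h3
    · apply hz
      rw [map_add, map_add, Finsupp.coe_add, Finsupp.coe_add, ← hrep, ← hrep, ← hrep]
      exact h4)
  obtain ⟨τ, hτ⟩ := Polynomial.exists_eval_ne_zero_of_natDegree_lt_card _ hs (by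
    rw [← Nat.cast_card]
    exact_mod_cast (det_deg a0 a2 a3 s).trans_lt hq)
  refine ⟨τ, ?_⟩
  rw [← LinearMap.ker_eq_bot, LinearMap.ker_eq_bot']
  intro x hx
  have hA : LinearMap.toMatrix bS bT (A0 + τ ^ 2 • A2 + τ ^ 3 • A3) =
      (MX a0 a2 a3).map (Polynomial.eval τ) := by
    ext j i
    rw [map_add, map_add, map_smul, map_smul, Matrix.map_apply, MX_apply]
    simp [ha0, ha2, ha3]
    ring
  have h6 : (((MX a0 a2 a3).map (Polynomial.eval τ)).submatrix s id).det ≠ 0 := by
    have h7 := RingHom.map_det (Polynomial.evalRingHom τ) ((MX a0 a2 a3).submatrix s id)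
    have h8 : (Polynomial.evalRingHom τ).mapMatrix ((MX a0 a2 a3).submatrix s id) =
        ((MX a0 a2 a3).map (Polynomial.eval τ)).submatrix s id := rfl
    rw [h8] at h7
    rw [← h7]
    exact hτ
  have h9 : ((MX a0 a2 a3).map (Polynomial.eval τ)).mulVec (bS.repr x) = 0 := by
    rw [← hA, LinearMap.toMatrix_mulVec_repr, hx, map_zero]
    rfl
  have h10 : (((MX a0 a2 a3).map (Polynomial.eval τ)).submatrix s id).mulVec (bS.repr x) = 0 := by
    funext i
    exact congrFun h9 (s i)
  have h11 := Matrix.eq_zero_of_mulVec_eq_zero h6 h10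
  have h12 : bS.repr x = 0 := DFunLike.coe_injective (by rw [h11]; rfl)
  simpa using h12

end Pool.Agent.H89.UD
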