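import Pool.Agent.H89.UD.Core
import Pool.Agent.H89.UD.Onep

/-!
# Pt : a good point in the chart at `1`

PROOF. Take `α` (`exists_al`), `b` (`exists_b`), `c` (`exists_c`), `X₁ = S 1 α`, `X₂ = S c b` (both in `𝔤`, `S_mem`), and `one_param` for `A0 = Psi P Q ℓ 1 0`, `A2 = PsiL P Q ℓ 1 X₁`, `A3 = PsiL P Q ℓ 1 X₂`; `finrank F (SP F E) = 2 (2r)^2 = 8 r^2` (`Module.finrank_linearMap`, `Module.finrank_prod`, `D.fin`).
`Psi_add`, `PsiL_smul`: `A0 + τ^2 • A2 + τ^3 • A3 = Psi P Q ℓ 1 (0 + τ^2 • X₁ + τ^3 • X₂)`, and `τ^2 • X₁ + τ^3 • X₂ ∈ 𝔤`. The hypothesis of `one_param`: let `v_i = (y_i, y_i')`. `A0 v0 = 0` (`Psi_eq_zero` with `X = 0`, `h = 1`): `y_0 ∈ SS Q`, `y_0' ∈ SS P`, `y_0' = y_0`, `ℓ y_0' = 0`; put `Z₀ = y_0`. `A0 v1 = 0`: the same, `Z₁ = y_1`.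
`A0 v2 + A2 v0 = 0` (`Psi_apply`, `PsiL_apply`, components; `mkQ x = 0 ↔ x ∈ SS`): `p₁ := y_2 + X₁ Z₀ ∈ SS Q`, `p₂ := y_2' + Z₀ X₁ ∈ SS P`, `y_2' - y_2 + X₁ Z₀ - Z₀ X₁ = 0`, so `p₂ - p₁ = 2 (Z₀ X₁ - X₁ Z₀)`, and for `e ∉ P`, `e ∉ Q` the coefficient of `2 (Z₀ X₁ - X₁ Z₀)` at `e` is zero (`co_sub`, `co_smul`, `two_ne`): hypothesis `h2` of `core`.
`A0 v3 + A2 v1 + A3 v0 = 0`: `y_3 + X₁ Z₁ + X₂ Z₀ ∈ SS Q`, `y_3' + Z₁ X₁ + Z₀ X₂ ∈ SS P`, `y_3' - y_3 + (X₁ Z₁ - Z₁ X₁) + (X₂ Z₀ - Z₀ X₂) = 0`: in the same way `h3`. `core` gives `Z₀ = z • 1`, `Adm` gives `z = 0`, so `v0 = 0`.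
-/

set_option autoImplicit false
set_option linter.unusedSectionVars false

namespace Pool.Agent.H89.UD

open Module Pool.Agent.H32.UD

variable {F E : Type} [Field F] [Field E] [Algebra F E] (D : Dat F E) [Finite F] [Finite E]

include D in
theorem finrank_SP : finrank F (SP F E) = 8 * D.r ^ 2 := by
  have hfd : FiniteDimensional F E :=
    FiniteDimensional.of_finrank_pos (by rw [D.fin]; have := D.four_le; omega)
  rw [Module.finrank_prod, Module.finrank_linearMap, D.fin]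
  ring

omit [Finite F] [Finite E] in
private theorem coe_one_inv : (((1 : E ≃ₗ[F] E)⁻¹ : E ≃ₗ[F] E) : Module.End F E) = 1 := by
  rw [inv_one]
  rfl

omit [Finite F] [Finite E] in
private theorem coe_one : ((1 : E ≃ₗ[F] E) : Module.End F E) = 1 := rfl

private theorem ker_zero {P Q : Set (ZMod (2 * D.r))} {ℓ : Module.End F E →ₗ[F] F}
    {y y' : Module.End F E} (h : Psi D P Q ℓ 1 0 (y, y') = 0) :
    y ∈ SS D Q ∧ y ∈ SS D P ∧ y' = y ∧ ℓ y = 0 := by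
  rw [Psi_eq_zero, coe_one_inv, coe_one] at h
  simp only [add_zero, sub_zero, one_mul, mul_one] at h
  obtain ⟨h1, h2, h3, h4⟩ := h
  subst h3
  exact ⟨h1, h2, rfl, h4⟩

private theorem lin3 {P Q : Set (ZMod (2 * D.r))} {ℓ : Module.End F E →ₗ[F] F}
    {X X' y y' z z' w w' : Module.End F E}
    (h : Psi D P Q ℓ 1 0 (y, y') + PsiL D P Q ℓ 1 X (z, z') + PsiL D P Q ℓ 1 X' (w, w') = 0) :
    y + X * z + X' * w ∈ SS D Q ∧ y' + z' * X + w' * X' ∈ SS D P ∧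
      y' - y + (X * z - z' * X) + (X' * w - w' * X') = 0 := by
  rw [Psi_apply, PsiL_apply, PsiL_apply, coe_one_inv, coe_one] at h
  simp only [add_zero, sub_zero, one_mul, mul_one] at h
  have h1 := congrArg Prod.fst h
  have h2 := congrArg (fun p => p.2.1) h
  have h3 := congrArg (fun p => p.2.2.1) h
  simp only [Prod.fst_add, Prod.snd_add, Prod.fst_zero, Prod.snd_zero] at h1 h2 h3
  rw [← map_add, ← map_add, Submodule.mkQ_apply, Submodule.Quotient.mk_eq_zero] at h1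
  rw [← map_add, ← map_add, Submodule.mkQ_apply, Submodule.Quotient.mk_eq_zero] at h2
  exact ⟨h1, h2, h3⟩

/-- the coefficients of half the difference of an element of `SS P` and one of `SS Q` -/
private theorem half_co {P Q : Set (ZMod (2 * D.r))} {p₁ p₂ W : Module.End F E} (h1 : p₁ ∈ SS D Q)
    (h2 : p₂ ∈ SS D P) (hW : (2 : F) • W = p₂ - p₁) {e : ZMod (2 * D.r)} (he : e ∉ P) (he' : e ∉ Q) :
    D.co W e = 0 := by
  have h3 := congrArg (fun Z => D.co Z e) hW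
  simp only [D.co_smul, D.co_sub] at h3
  rw [h2 e he, h1 e he', sub_zero] at h3
  exact (smul_eq_zero.1 h3).resolve_left D.two_ne

theorem good_one {k l : ℕ} (hk : k.Prime) (hl : l.Prime) (hkr : k ∣ 2 * D.r) (hlr : l ∣ 2 * D.r)
    (hkl : ¬ (k = 2 ∧ l = 2)) (s : ZMod k) (t : ZMod l) (ℓ : Module.End F E →ₗ[F] F)
    (hℓ : Adm D (cl D k s) (cl D l t) ℓ) (hq : 24 * D.r ^ 2 < Nat.card F) :
    ∃ X ∈ D.𝔤, Function.Injective (Psi D (cl D k s) (cl D l t) ℓ 1 X) := by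
  have hfd : FiniteDimensional F E :=
    FiniteDimensional.of_finrank_pos (by rw [D.fin]; have := D.four_le; omega)
  obtain ⟨α, hα0, hα, hαg⟩ := exists_al D
  obtain ⟨b, hb⟩ := exists_b D
  obtain ⟨c, hc⟩ := exists_c D hk hl hkr hlr hkl
  have hmain : ∀ v0 v1 v2 v3 : SP F E, Psi D (cl D k s) (cl D l t) ℓ 1 0 v0 = 0 →
      Psi D (cl D k s) (cl D l t) ℓ 1 0 v1 = 0 →
      Psi D (cl D k s) (cl D l t) ℓ 1 0 v2 + PsiL D (cl D k s) (cl D l t) ℓ 1 (D.S 1 α) v0 = 0 →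
      Psi D (cl D k s) (cl D l t) ℓ 1 0 v3 + PsiL D (cl D k s) (cl D l t) ℓ 1 (D.S 1 α) v1 +
        PsiL D (cl D k s) (cl D l t) ℓ 1 (D.S c b) v0 = 0 → v0 = 0 := by
    rintro ⟨y0, y0'⟩ ⟨y1, y1'⟩ ⟨y2, y2'⟩ ⟨y3, y3'⟩ e0 e1 e2 e3
    obtain ⟨a1, a2, a3, a4⟩ := ker_zero D e0
    obtain ⟨b1, b2, b3, -⟩ := ker_zero D e1
    subst a3
    subst b3
    have e2' : Psi D (cl D k s) (cl D l t) ℓ 1 0 (y2, y2') +
        PsiL D (cl D k s) (cl D l t) ℓ 1 (D.S 1 α) (y0', y0') +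
        PsiL D (cl D k s) (cl D l t) ℓ 1 0 (0, 0) = 0 := by
      have : ((0 : Module.End F E), (0 : Module.End F E)) = (0 : SP F E) := rfl
      rw [this, map_zero, add_zero]
      exact e2
    obtain ⟨c1, c2, c3⟩ := lin3 D e2'
    simp only [mul_zero, add_zero, sub_zero] at c1 c2 c3
    obtain ⟨d1, d2, d3⟩ := lin3 D e3
    have h2 : ∀ e, e ∉ cl D k s → e ∉ cl D l t → D.co (y0' * D.S 1 α - D.S 1 α * y0') e = 0 := by
      intro e he he'
      refine half_co D c1 c2 ?_ he he'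
      rw [two_smul]
      have h5 : y2' - y2 = y0' * D.S 1 α - D.S 1 α * y0' := by
        rw [← sub_eq_zero]
        rw [← c3]
        abel
      calc (y0' * D.S 1 α - D.S 1 α * y0') + (y0' * D.S 1 α - D.S 1 α * y0')
          = (y2' - y2) + (y0' * D.S 1 α - D.S 1 α * y0') := by rw [h5]
        _ = _ := by abel
    have h3 : ∀ e, e ∉ cl D k s → e ∉ cl D l t →
        D.co ((y1' * D.S 1 α - D.S 1 α * y1') + (y0' * D.S c b - D.S c b * y0')) e = 0 := by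
      intro e he he'
      refine half_co D d1 d2 ?_ he he'
      rw [two_smul]
      have h5 : y3' - y3 = (y1' * D.S 1 α - D.S 1 α * y1') + (y0' * D.S c b - D.S c b * y0') := by
        rw [← sub_eq_zero]
        rw [← d3]
        abel
      calc ((y1' * D.S 1 α - D.S 1 α * y1') + (y0' * D.S c b - D.S c b * y0')) +
            ((y1' * D.S 1 α - D.S 1 α * y1') + (y0' * D.S c b - D.S c b * y0'))
          = (y3' - y3) + ((y1' * D.S 1 α - D.S 1 α * y1') + (y0' * D.S c b - D.S c b * y0')) := by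
            rw [h5]
        _ = _ := by abel
    obtain ⟨z, hz⟩ := core D hk hl hkr hlr hkl c hc α b hα0 hα hαg hb s t y0' y1' a2 a1 b2 b1 h2 h3
    rw [hz] at a1 a2 a4
    have hz0 := hℓ z a2 a1 a4
    rw [hz0, zero_smul] at hz
    rw [hz]
    rfl
  obtain ⟨τ, hτ⟩ := one_param (Psi D (cl D k s) (cl D l t) ℓ 1 0)
    (PsiL D (cl D k s) (cl D l t) ℓ 1 (D.S 1 α)) (PsiL D (cl D k s) (cl D l t) ℓ 1 (D.S c b)) hmain
    (by rw [finrank_SP D]; omega)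
  refine ⟨τ ^ 2 • D.S 1 α + τ ^ 3 • D.S c b, ?_, ?_⟩
  · exact Submodule.add_mem _ (Submodule.smul_mem _ _ (D.S_mem 1 α)) (Submodule.smul_mem _ _ (D.S_mem c b))
  · have h1 : Psi D (cl D k s) (cl D l t) ℓ 1 (τ ^ 2 • D.S 1 α + τ ^ 3 • D.S c b) =
        Psi D (cl D k s) (cl D l t) ℓ 1 0 + τ ^ 2 • PsiL D (cl D k s) (cl D l t) ℓ 1 (D.S 1 α) +
          τ ^ 3 • PsiL D (cl D k s) (cl D l t) ℓ 1 (D.S c b) := by
      rw [← PsiL_smul, ← PsiL_smul, ← Psi_add, ← Psi_add, zero_add]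
    rw [h1]
    exact hτ

end Pool.Agent.H89.UD
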