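import Pool.Agent.H89.UD.Ker
import Pool.Agent.H89.UD.Aff
import Pool.Agent.H89.UD.Pt

/-!
# Chn : good points in all charts

PROOFS. `count_Psi`: `affine_count` for `V = 𝔤` (a finite module), `Ψ X = Psi P Q ℓ h X`, `B = PsiL P Q ℓ h Y` (`Psi_add`, `PsiL_smul`), `finrank_SP`. `count_one`: `affine_count` for `Ψ X = 1 + X : E →ₗ E`, `X₀ = 0`, `B = Y`, `finrank F E = 2 r`. `count_quot`: `Ψ X = (1 + X) + u⁻¹ (1 - X)`, `B = Y - u⁻¹ Y`, `X₀ = exists_log`, `cay_self`.
`good_all`: `Subgroup.closure_induction_right` for `h ∈ Gc = closure Cay`: the statement for `h = 1` is `h0`; let it hold for `h`, `u ∈ Cay` (for `u⁻¹` use `Cay_inv`). The three sets of `X ∈ 𝔤`: `Psi .. h X` not injective, `1 + X` not injective, `(1 + X) + u⁻¹ (1 - X)` not injective, have together at most `(8 r^2 + 4 r) |𝔤| / (q - 1) < |𝔤|` elements,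
so there is `X ∈ 𝔤` in none of them. Let `v ∈ Cay`, `v (1 + X) = 1 - X` (`exists_cay`): `Gd (h v)` by `Psi_inj_iff`. `u⁻¹ v ∈ Cay` (`Cay_quot`), `X'` with `u⁻¹ v (1 + X') = 1 - X'` (`exists_log`), and `h u (u⁻¹ v) = h v`, so `Psi .. (h u) X'` is injective by `Psi_inj_iff`.
-/

set_option autoImplicit false
set_option linter.unusedSectionVars false

namespace Pool.Agent.H89.UD

open Module Pool.Agent.H32.UD

variable {F E : Type} [Field F] [Field E] [Algebra F E] (D : Dat F E) [Finite F] [Finite E]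

private theorem chn_finite_end : Finite (Module.End F E) :=
  Finite.of_injective (fun f : Module.End F E => (f : E → E)) DFunLike.coe_injective

private theorem chn_fd : FiniteDimensional F E := Module.Finite.of_finite

private theorem exists_none {V : Type} [Finite V] (p1 p2 p3 : V → Prop)
    (h : Nat.card {x // p1 x} + Nat.card {x // p2 x} + Nat.card {x // p3 x} < Nat.card V) :
    ∃ x, ¬ p1 x ∧ ¬ p2 x ∧ ¬ p3 x := by
  classical
  by_contra hcon
  have h3 : ∀ x, ¬ p1 x → ¬ p2 x → p3 x := by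
    intro x h1 h2
    by_contra h3
    exact hcon ⟨x, h1, h2, h3⟩
  let f : V → {x // p1 x} ⊕ ({x // p2 x} ⊕ {x // p3 x}) := fun x =>
    if h1 : p1 x then Sum.inl ⟨x, h1⟩
    else if h2 : p2 x then Sum.inr (Sum.inl ⟨x, h2⟩) else Sum.inr (Sum.inr ⟨x, h3 x h1 h2⟩)
  let g : {x // p1 x} ⊕ ({x // p2 x} ⊕ {x // p3 x}) → V :=
    Sum.elim Subtype.val (Sum.elim Subtype.val Subtype.val)
  have hfg : Function.LeftInverse g f := by
    intro x
    simp only [f, g]
    split_ifs <;> rfl
  have h4 := Nat.card_le_card_of_injective f hfg.injective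
  rw [Nat.card_sum, Nat.card_sum] at h4
  omega

theorem count_Psi (P Q : Set (ZMod (2 * D.r))) (ℓ : Module.End F E →ₗ[F] F) (h : E ≃ₗ[F] E)
    (h0 : ∃ X ∈ D.𝔤, Function.Injective (Psi D P Q ℓ h X)) :
    Nat.card {X : D.𝔤 // ¬ Function.Injective (Psi D P Q ℓ h X)} * (Nat.card F - 1) ≤
      8 * D.r ^ 2 * Nat.card D.𝔤 := by
  have := chn_finite_end (F := F) (E := E)
  have := chn_fd (F := F) (E := E)
  obtain ⟨X₀, hX₀, hinj⟩ := h0
  rw [← finrank_SP D]
  refine affine_count (V := D.𝔤) (fun X => Psi D P Q ℓ h (X : Module.End F E)) ⟨X₀, hX₀⟩ hinj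
    fun Y => ⟨PsiL D P Q ℓ h (Y : Module.End F E), fun τ => ?_⟩
  simp only [Submodule.coe_add, Submodule.coe_smul]
  rw [Psi_add, PsiL_smul]

theorem count_one :
    Nat.card {X : D.𝔤 // ¬ Function.Injective (1 + (X : Module.End F E) : Module.End F E)} * (Nat.card F - 1) ≤
      2 * D.r * Nat.card D.𝔤 := by
  have := chn_finite_end (F := F) (E := E)
  have := chn_fd (F := F) (E := E)
  rw [← D.fin]
  refine affine_count (V := D.𝔤) (fun X => (1 + (X : Module.End F E) : Module.End F E)) 0 ?_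
    fun Y => ⟨(Y : Module.End F E), fun τ => ?_⟩
  · simp only [Submodule.coe_zero, add_zero]
    exact fun x y h => h
  · simp only [Submodule.coe_add, Submodule.coe_smul, Submodule.coe_zero]
    rw [zero_add, add_zero]

theorem count_quot {u : E ≃ₗ[F] E} (hu : u ∈ D.Cay) :
    Nat.card {X : D.𝔤 // ¬ Function.Injective ((1 + (X : Module.End F E)) +
      ((u⁻¹ : E ≃ₗ[F] E) : Module.End F E) * (1 - (X : Module.End F E)) : Module.End F E)} * (Nat.card F - 1) ≤
      2 * D.r * Nat.card D.𝔤 := by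
  have := chn_finite_end (F := F) (E := E)
  have := chn_fd (F := F) (E := E)
  obtain ⟨X₀, hX₀, hi, he⟩ := exists_log D hu
  rw [← D.fin]
  refine affine_count (V := D.𝔤) (fun X => ((1 + (X : Module.End F E)) +
      ((u⁻¹ : E ≃ₗ[F] E) : Module.End F E) * (1 - (X : Module.End F E)) : Module.End F E)) ⟨X₀, hX₀⟩
    (cay_self D hi he)
    fun Y => ⟨(Y : Module.End F E) - ((u⁻¹ : E ≃ₗ[F] E) : Module.End F E) * (Y : Module.End F E),
      fun τ => ?_⟩
  simp only [Submodule.coe_add, Submodule.coe_smul]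
  rw [smul_sub, ← mul_smul_comm]
  simp only [mul_sub, mul_add]
  abel

theorem good_all (P Q : Set (ZMod (2 * D.r))) (ℓ : Module.End F E →ₗ[F] F)
    (h0 : ∃ X ∈ D.𝔤, Function.Injective (Psi D P Q ℓ 1 X)) (hq : 8 * D.r ^ 2 + 4 * D.r + 1 < Nat.card F)
    (h : E ≃ₗ[F] E) (hh : h ∈ D.Gc) : ∃ X ∈ D.𝔤, Function.Injective (Psi D P Q ℓ h X) := by
  have hfin := chn_finite_end (F := F) (E := E)
  have step : ∀ (h u : E ≃ₗ[F] E), u ∈ D.Cay → (∃ X ∈ D.𝔤, Function.Injective (Psi D P Q ℓ h X)) →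
      ∃ X ∈ D.𝔤, Function.Injective (Psi D P Q ℓ (h * u) X) := by
    intro h u hu hg
    have c1 := count_Psi D P Q ℓ h hg
    have c2 := count_one D
    have c3 := count_quot D hu
    set N := Nat.card D.𝔤 with hN
    have hN0 : 0 < N := Nat.card_pos
    obtain ⟨X, hX1, hX2, hX3⟩ := exists_none (V := D.𝔤)
      (fun X => ¬ Function.Injective (Psi D P Q ℓ h X))
      (fun X => ¬ Function.Injective (1 + (X : Module.End F E) : Module.End F E))
      (fun X => ¬ Function.Injective ((1 + (X : Module.End F E)) +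
        ((u⁻¹ : E ≃ₗ[F] E) : Module.End F E) * (1 - (X : Module.End F E)) : Module.End F E)) (by
      by_contra hcon
      have h1 := not_lt.1 hcon
      have h2 := Nat.mul_le_mul_right (Nat.card F - 1) h1
      rw [add_mul, add_mul] at h2
      have h3 : (Nat.card F - 1) * N ≤ (8 * D.r ^ 2 + 4 * D.r) * N := by
        calc (Nat.card F - 1) * N = N * (Nat.card F - 1) := mul_comm _ _
          _ ≤ 8 * D.r ^ 2 * N + 2 * D.r * N + 2 * D.r * N :=
            h2.trans (add_le_add (add_le_add c1 c2) c3)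
          _ = (8 * D.r ^ 2 + 4 * D.r) * N := by ring
      have h4 := Nat.le_of_mul_le_mul_right h3 hN0
      omega)
    rw [not_not] at hX1 hX2 hX3
    obtain ⟨v, hv, hvX⟩ := exists_cay D X.2 hX2
    have hGd := (Psi_inj_iff D P Q ℓ h v hX2 hvX).1 hX1
    have huv := Cay_quot D hX2 hu hv hvX hX3
    obtain ⟨X', hX', hI', he'⟩ := exists_log D huv
    refine ⟨X', hX', (Psi_inj_iff D P Q ℓ (h * u) (u⁻¹ * v) hI' he').2 ?_⟩
    have h5 : h * u * (u⁻¹ * v) = h * v := by group
    rw [h5]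
    exact hGd
  unfold Dat.Gc at hh
  induction hh using Subgroup.closure_induction_right with
  | one => exact h0
  | mul_right x _ y hy ih => exact step x y hy ih
  | mul_inv_cancel x _ y hy ih => exact step x y⁻¹ (Cay_inv D hy) ih

end Pool.Agent.H89.UD
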