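import Pool.Agent.H89.UD.Elt

/-!
# Core : the perturbation argument, algebra

Write `X₁ = S 1 α`, `X₂ = S c b`, `P = cl k s`, `Q = cl l t`, `z_d = co Z₀ d`, `w_d = co Z₁ d`. Order two: no collisions, so `Z₀` commutes with the two components of `X₁`, which gives `σ d (α^2) = α^2` when `z_d ≠ 0`, so `Z₀ = z_0 + z_r Fz r` with `z_0, z_r ∈ F`.
Order three at the degree `r + c`: `z_r (bar b - b)` is equal to the contribution of `w_{r+c+1}`, which is real or excluded by the companion equation at the degree `r + c + 2`.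
-/

set_option autoImplicit false
set_option linter.unusedSectionVars false

namespace Pool.Agent.H89.UD

open Module Pool.Agent.H32.UD

variable {F E : Type} [Field F] [Field E] [Algebra F E] (D : Dat F E) [Finite F] [Finite E]

private theorem co_mul_single (Z : Module.End F E) (x : E) (a e : ZMod (2 * D.r)) :
    D.co (Z * (M F x * D.Fz a)) e = D.co Z (e - a) * D.σ (e - a) x := by
  rw [D.co_mul, Finset.sum_eq_single (e - a)]
  · rw [D.co_single, if_pos (by ring)]
  · intro d _ hd
    rw [D.co_single, if_neg (fun h => hd (by rw [← h]; ring)), map_zero, mul_zero]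
  · intro h
    exact absurd (Finset.mem_univ _) h

private theorem co_single_mul (Z : Module.End F E) (x : E) (a e : ZMod (2 * D.r)) :
    D.co ((M F x * D.Fz a) * Z) e = x * D.σ a (D.co Z (e - a)) := by
  rw [D.co_mul, Finset.sum_eq_single a]
  · rw [D.co_single, if_pos rfl]
  · intro d _ hd
    rw [D.co_single, if_neg hd, zero_mul]
  · intro h
    exact absurd (Finset.mem_univ _) h

private theorem S_eq (a : ZMod (2 * D.r)) (x : E) :
    D.S a x = M F x * D.Fz a - M F (D.sg a • D.σ (-a) (D.bar x)) * D.Fz (-a) := by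
  unfold Dat.S
  rw [D.Fz_M, M_smul, smul_mul_assoc]

/-- the coefficients of the commutator with `S a x` -/
theorem co_comm_S (Z : Module.End F E) (a : ZMod (2 * D.r)) (x : E) (e : ZMod (2 * D.r)) :
    D.co (Z * D.S a x - D.S a x * Z) e =
      (D.co Z (e - a) * D.σ (e - a) x - x * D.σ a (D.co Z (e - a))) -
      (D.co Z (e + a) * D.σ (e + a) (D.sg a • D.σ (-a) (D.bar x)) -
        (D.sg a • D.σ (-a) (D.bar x)) * D.σ (-a) (D.co Z (e + a))) := by
  rw [S_eq, mul_sub, sub_mul, D.co_sub, D.co_sub, D.co_sub, co_mul_single, co_mul_single,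
    co_single_mul, co_single_mul, sub_neg_eq_add]
  ring

/-- an element fixed by the Frobenius automorphism is in the base field -/
private theorem fr_fixed {x : E} (h : fr F E x = x) : ∃ a : F, algebraMap F E a = x := by
  classical
  have := Fintype.ofFinite F
  have := Fintype.ofFinite E
  by_contra hc
  push Not at hc
  have hq : 1 < Nat.card F := Finite.one_lt_card
  have hne : (Polynomial.X ^ Nat.card F - Polynomial.X : Polynomial E) ≠ 0 :=
    FiniteField.X_pow_card_sub_X_ne_zero E hq
  have h1 : ∀ y : E, fr F E y = y → y ∈ (Polynomial.X ^ Nat.card F - Polynomial.X : Polynomial E).roots := by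
    intro y hy
    rw [Polynomial.mem_roots hne, Polynomial.IsRoot.def, Polynomial.eval_sub, Polynomial.eval_pow,
      Polynomial.eval_X, ← fr_apply F y, hy, sub_self]
  have h2 : insert x (Finset.univ.image (algebraMap F E)) ⊆
      (Polynomial.X ^ Nat.card F - Polynomial.X : Polynomial E).roots.toFinset := by
    intro y hy
    rw [Multiset.mem_toFinset]
    rw [Finset.mem_insert, Finset.mem_image] at hy
    rcases hy with rfl | ⟨a, _, rfl⟩
    · exact h1 _ h
    · exact h1 _ ((fr F E).commutes a)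
  have h3 := Finset.card_le_card h2
  rw [Finset.card_insert_of_notMem, Finset.card_image_of_injective _ (algebraMap F E).injective,
    Finset.card_univ, ← Nat.card_eq_fintype_card] at h3
  · have h4 := Multiset.toFinset_card_le (Polynomial.X ^ Nat.card F - Polynomial.X : Polynomial E).roots
    have h5 := Polynomial.card_roots' (Polynomial.X ^ Nat.card F - Polynomial.X : Polynomial E)
    rw [FiniteField.X_pow_card_sub_X_natDegree_eq E hq] at h5
    omega
  · intro hx
    obtain ⟨a, _, ha⟩ := Finset.mem_image.1 hx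
    exact hc a ha

/-- the solutions of the twisted equation are real -/
private theorem real_of {α x : E} (hα0 : α ≠ 0) (hα : D.bar α = α) (d : ZMod (2 * D.r))
    (h : x * D.σ d α = α * D.σ 1 x) : D.bar x = x := by
  set ω : ℕ → E := fun n => ∏ i ∈ Finset.range n, (fr F E ^ i) α with hω
  have h1 : ∀ n, fr F E (ω n) * α = ω n * (fr F E ^ n) α := by
    intro n
    have e1 : fr F E (ω n) = ∏ i ∈ Finset.range n, (fr F E ^ (i + 1)) α := by
      rw [hω]
      dsimp only
      rw [map_prod]
      refine Finset.prod_congr rfl fun i _ => ?_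
      rw [pow_succ', AlgEquiv.mul_apply]
    have e2 := Finset.prod_range_succ (fun i => (fr F E ^ i) α) n
    have e3 := Finset.prod_range_succ' (fun i => (fr F E ^ i) α) n
    rw [e3] at e2
    rw [e1]
    exact e2
  have h2 : ∀ n, ω n ≠ 0 := by
    intro n
    rw [hω]
    exact Finset.prod_ne_zero_iff.2 fun i _ => by
      rw [Ne, map_eq_zero_iff _ (AlgEquiv.injective _)]
      exact hα0
  have h3 : ∀ n, D.bar (ω n) = ω n := by
    intro n
    rw [hω]
    dsimp only
    rw [map_prod]
    refine Finset.prod_congr rfl fun i _ => ?_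
    have := D.bar_σ (i : ZMod (2 * D.r)) α
    rw [D.σ_natCast, hα] at this
    exact this
  have h4 : fr F E (x / ω d.val) = x / ω d.val := by
    rw [map_div₀]
    have e1 : D.σ d α = (fr F E ^ d.val) α := rfl
    have e2 : D.σ 1 x = fr F E x := by rw [D.σ_one]
    rw [e1, e2] at h
    have e3 := h1 d.val
    have e4 : fr F E (ω d.val) ≠ 0 := by
      rw [Ne, map_eq_zero_iff _ (AlgEquiv.injective _)]
      exact h2 _
    rw [div_eq_div_iff e4 (h2 _)]
    have e5 : α * (fr F E x * ω d.val) = α * (x * fr F E (ω d.val)) := by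
      linear_combination -ω d.val * h - x * e3
    exact mul_left_cancel₀ hα0 e5
  obtain ⟨a, ha⟩ := fr_fixed h4
  have h5 : x = algebraMap F E a * ω d.val := by
    rw [ha, div_mul_cancel₀ _ (h2 _)]
  rw [h5, map_mul, h3, AlgEquiv.commutes]

theorem core {k l : ℕ} (hk : k.Prime) (hl : l.Prime) (hkr : k ∣ 2 * D.r) (hlr : l ∣ 2 * D.r)
    (hkl : ¬ (k = 2 ∧ l = 2)) (c : ZMod (2 * D.r)) (hc : CC D k l c) (α b : E) (hα0 : α ≠ 0)
    (hα : D.bar α = α)
    (hαg : ∀ d : ZMod (2 * D.r), D.σ d (α ^ 2) = α ^ 2 → d = 0 ∨ d = (D.r : ZMod (2 * D.r)))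
    (hb : D.bar b ≠ b) (s : ZMod k) (t : ZMod l) (Z₀ Z₁ : Module.End F E)
    (h0k : Z₀ ∈ SS D (cl D k s)) (h0l : Z₀ ∈ SS D (cl D l t))
    (h1k : Z₁ ∈ SS D (cl D k s)) (h1l : Z₁ ∈ SS D (cl D l t))
    (h2 : ∀ e, e ∉ cl D k s → e ∉ cl D l t → D.co (Z₀ * D.S 1 α - D.S 1 α * Z₀) e = 0)
    (h3 : ∀ e, e ∉ cl D k s → e ∉ cl D l t →
      D.co ((Z₁ * D.S 1 α - D.S 1 α * Z₁) + (Z₀ * D.S c b - D.S c b * Z₀)) e = 0) :
    ∃ z : F, Z₀ = z • (1 : Module.End F E) := by
  have hkf : Fact k.Prime := ⟨hk⟩
  have hlf : Fact l.Prime := ⟨hl⟩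
  have h2E : (2 : E) ≠ 0 := by
    intro h
    apply D.two_ne
    apply (algebraMap F E).injective
    rw [map_ofNat, h, map_zero]
  set β : E := D.sg 1 • D.σ (-1) (D.bar α) with hβ
  -- supports
  have hz : ∀ d, D.co Z₀ d ≠ 0 → res D k d = s ∧ res D l d = t := by
    intro d hd
    constructor
    · by_contra hn
      exact hd (h0k d hn)
    · by_contra hn
      exact hd (h0l d hn)
  have hw : ∀ d, D.co Z₁ d ≠ 0 → res D k d = s ∧ res D l d = t := by
    intro d hd
    constructor
    · by_contra hn
      exact hd (h1k d hn)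
    · by_contra hn
      exact hd (h1l d hn)
  have hone : ∀ {m : ℕ} [Fact m.Prime] (u : ZMod m), u + 1 ≠ u ∧ u - 1 ≠ u := by
    intro m hm u
    constructor
    · intro h
      exact one_ne_zero (add_eq_left.1 h)
    · intro h
      exact one_ne_zero (sub_eq_self.1 h)
  -- no collision of distance two
  have htwo : ∀ (u : ZMod k) (v : ZMod l), (u + 2 = u ∧ v + 2 = v) → False := by
    rintro u v ⟨hu, hv⟩
    have e1 : ((2 : ℕ) : ZMod k) = 0 := by
      have := add_eq_left.1 hu
      exact_mod_cast this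
    have e2 : ((2 : ℕ) : ZMod l) = 0 := by
      have := add_eq_left.1 hv
      exact_mod_cast this
    rw [ZMod.natCast_eq_zero_iff] at e1 e2
    exact hkl ⟨(Nat.prime_dvd_prime_iff_eq hk Nat.prime_two).1 e1,
      (Nat.prime_dvd_prime_iff_eq hl Nat.prime_two).1 e2⟩
  have hgap : ∀ (Z : Module.End F E), (∀ d, D.co Z d ≠ 0 → res D k d = s ∧ res D l d = t) →
      ∀ d, res D k d = s → res D l d = t → D.co Z (d + 2) = 0 ∧ D.co Z (d - 2) = 0 := by
    intro Z hZ d hd1 hd2
    constructor
    · by_contra hn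
      obtain ⟨e1, e2⟩ := hZ _ hn
      rw [res_add D hkr, res_two D hkr, hd1] at e1
      rw [res_add D hlr, res_two D hlr, hd2] at e2
      exact htwo s t ⟨e1, e2⟩
    · by_contra hn
      obtain ⟨e1, e2⟩ := hZ _ hn
      rw [res_sub D hkr, res_two D hkr, hd1] at e1
      rw [res_sub D hlr, res_two D hlr, hd2] at e2
      exact htwo s t ⟨by linear_combination -e1, by linear_combination -e2⟩
  -- first order
  have hβ1 : D.σ 1 β = D.sg 1 • α := by
    rw [hβ, hα, map_smul, D.σ_apply_neg]
  have hβd : ∀ d, D.σ (1 + d) β = D.sg 1 • D.σ d α := by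
    intro d
    rw [add_comm, D.σ_add_apply, hβ1, map_smul]
  have hsg : ∀ a : ZMod (2 * D.r), algebraMap F E (D.sg a) * algebraMap F E (D.sg a) = 1 := by
    intro a
    rw [← map_mul, D.sg_mul_self, map_one]
  have step1 : ∀ d, D.co Z₀ d * D.σ d α = α * D.σ 1 (D.co Z₀ d) ∧
      D.co Z₀ d * D.σ d β = β * D.σ (-1) (D.co Z₀ d) := by
    intro d
    by_cases hd : D.co Z₀ d = 0
    · rw [hd, map_zero, map_zero, zero_mul, mul_zero, zero_mul, mul_zero]
      exact ⟨rfl, rfl⟩
    · obtain ⟨hd1, hd2⟩ := hz d hd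
      obtain ⟨g1, g2⟩ := hgap Z₀ hz d hd1 hd2
      constructor
      · have e1 : (d + 1) ∉ cl D k s := by
          rw [mem_cl, res_add D hkr, res_one D hkr, hd1]
          exact (hone s).1
        have e2 : (d + 1) ∉ cl D l t := by
          rw [mem_cl, res_add D hlr, res_one D hlr, hd2]
          exact (hone t).1
        have e3 := h2 _ e1 e2
        rw [co_comm_S, add_sub_cancel_right, show d + 1 + 1 = d + 2 by ring, g1, map_zero,
          zero_mul, mul_zero, sub_zero, sub_zero] at e3
        exact sub_eq_zero.1 e3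
      · have e1 : (d - 1) ∉ cl D k s := by
          rw [mem_cl, res_sub D hkr, res_one D hkr, hd1]
          exact (hone s).2
        have e2 : (d - 1) ∉ cl D l t := by
          rw [mem_cl, res_sub D hlr, res_one D hlr, hd2]
          exact (hone t).2
        have e3 := h2 _ e1 e2
        rw [co_comm_S, sub_add_cancel, show d - 1 - 1 = d - 2 by ring, g2, map_zero,
          zero_mul, mul_zero, sub_zero, zero_sub, neg_eq_zero] at e3
        exact sub_eq_zero.1 e3
  have step2 : ∀ d, D.co Z₀ d ≠ 0 → d = 0 ∨ d = (D.r : ZMod (2 * D.r)) := by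
    intro d hd
    obtain ⟨e1, e2⟩ := step1 d
    apply hαg
    have e3 := congrArg (D.σ 1) e2
    rw [map_mul, map_mul, D.σ_apply_neg, ← D.σ_add_apply, hβd, hβ1, Algebra.smul_def,
      Algebra.smul_def] at e3
    have e4 : D.σ 1 (D.co Z₀ d) * D.σ d α = α * D.co Z₀ d := by
      have h5 := hsg 1
      linear_combination (algebraMap F E (D.sg 1)) * e3 +
        (α * D.co Z₀ d - D.σ 1 (D.co Z₀ d) * D.σ d α) * h5
    rw [map_pow]
    apply mul_left_cancel₀ hd
    linear_combination D.σ d α * e1 + α * e4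
  have hF : ∀ d, (d = 0 ∨ d = (D.r : ZMod (2 * D.r))) → fr F E (D.co Z₀ d) = D.co Z₀ d := by
    intro d hd
    have e1 := (step1 d).1
    have e2 : D.σ d α = α := by
      rcases hd with rfl | rfl
      · exact D.σ_zero_apply α
      · exact hα
    rw [e2, D.σ_one] at e1
    apply mul_left_cancel₀ hα0
    linear_combination -e1
  have hσF : ∀ x : E, fr F E x = x → ∀ d, D.σ d x = x := by
    intro x hx d
    obtain ⟨a, rfl⟩ := fr_fixed hx
    exact (D.σ d).commutes a
  -- the coefficient at `r` vanishes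
  have hzr : D.co Z₀ (D.r : ZMod (2 * D.r)) = 0 := by
    by_contra hr
    obtain ⟨hr1, hr2⟩ := hz _ hr
    set R : ZMod (2 * D.r) := (D.r : ZMod (2 * D.r)) with hR
    set zr := D.co Z₀ R with hzr
    have hzrF : ∀ d, D.σ d zr = zr := hσF zr (hF R (Or.inr rfl))
    set b' : E := D.sg c • D.σ (-c) (D.bar b) with hb'
    -- the terms of the commutator with `X₂`
    have t1 : ∀ f, f ≠ R → D.co Z₀ f * D.σ f b - b * D.σ c (D.co Z₀ f) = 0 := by
      intro f hf
      by_cases h0 : D.co Z₀ f = 0
      · rw [h0, map_zero, zero_mul, mul_zero, sub_zero]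
      · rcases step2 f h0 with rfl | h
        · rw [hσF _ (hF 0 (Or.inl rfl)), D.σ_zero_apply]; ring
        · exact absurd h hf
    have t2 : ∀ f, f ≠ R → D.co Z₀ f * D.σ f b' - b' * D.σ (-c) (D.co Z₀ f) = 0 := by
      intro f hf
      by_cases h0 : D.co Z₀ f = 0
      · rw [h0, map_zero, zero_mul, mul_zero, sub_zero]
      · rcases step2 f h0 with rfl | h
        · rw [hσF _ (hF 0 (Or.inl rfl)), D.σ_zero_apply]; ring
        · exact absurd h hf
    have t1R : zr * D.σ R b - b * D.σ c zr = zr * (D.bar b - b) := by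
      rw [hzrF, D.bar_eq]; ring
    have t2R : zr * D.σ R b' - b' * D.σ (-c) zr = zr * (D.bar b' - b') := by
      rw [hzrF, D.bar_eq]; ring
    -- the equation at `r + c`
    have e1 : R + c ∉ cl D k s := by
      rw [mem_cl, res_add D hkr, hr1]
      exact fun h => hc.rk (add_eq_left.1 h)
    have e2 : R + c ∉ cl D l t := by
      rw [mem_cl, res_add D hlr, hr2]
      exact fun h => hc.rl (add_eq_left.1 h)
    have e3 := h3 _ e1 e2
    have e4 : D.co Z₁ (R + c - 1) = 0 := by
      by_contra hn
      obtain ⟨f1, f2⟩ := hw _ hn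
      apply hc.m1
      rw [add_sub_assoc, res_add D hkr, hr1] at f1
      rw [add_sub_assoc, res_add D hlr, hr2] at f2
      exact ⟨add_eq_left.1 f1, add_eq_left.1 f2⟩
    have e5 : R + c + c ≠ R := by
      intro h
      rw [add_assoc] at h
      exact hc.two (add_eq_left.1 h)
    rw [D.co_add, co_comm_S, co_comm_S, add_sub_cancel_right, e4, map_zero, zero_mul, mul_zero,
      sub_zero, ← hβ, ← hb', t2 _ e5, sub_zero, t1R, zero_sub] at e3
    have hbb : zr * (D.bar b - b) ≠ 0 := mul_ne_zero hr (sub_ne_zero.2 hb)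
    set wd := D.co Z₁ (R + c + 1) with hwd
    have hwd0 : wd ≠ 0 := by
      intro h
      rw [h, map_zero, zero_mul, mul_zero, sub_zero, neg_zero, zero_add] at e3
      exact hbb e3
    obtain ⟨hd1, hd2⟩ := hw _ hwd0
    have hcol : res D k (c + 1) = 0 ∧ res D l (c + 1) = 0 := by
      rw [add_assoc, res_add D hkr, hr1] at hd1
      rw [add_assoc, res_add D hlr, hr2] at hd2
      exact ⟨add_eq_left.1 hd1, add_eq_left.1 hd2⟩
    -- the companion equation
    have f1 : R + c + 1 + 1 ∉ cl D k s := by
      rw [mem_cl, res_add D hkr, res_one D hkr, hd1]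
      exact (hone s).1
    have f2 : R + c + 1 + 1 ∉ cl D l t := by
      rw [mem_cl, res_add D hlr, res_one D hlr, hd2]
      exact (hone t).1
    have f3 := h3 _ f1 f2
    have f4 : D.co Z₁ (R + c + 1 + 1 + 1) = 0 := by
      have := (hgap Z₁ hw _ hd1 hd2).1
      rwa [show R + c + 1 + 2 = R + c + 1 + 1 + 1 by ring] at this
    have h2z : (2 : ZMod (2 * D.r)) ≠ 0 := by
      have h4 := D.four_le
      have : ((2 : ℕ) : ZMod (2 * D.r)) ≠ 0 := by
        rw [Ne, ZMod.natCast_eq_zero_iff]
        intro h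
        have := Nat.le_of_dvd (by norm_num) h
        omega
      exact_mod_cast this
    have f5 : R + c + 1 + 1 - c ≠ R := by
      intro h
      apply h2z
      linear_combination h
    rw [D.co_add, co_comm_S, co_comm_S, add_sub_cancel_right, f4, map_zero, zero_mul, mul_zero,
      sub_zero, sub_zero, ← hb', t1 _ f5, zero_sub] at f3
    have hbarβ : D.bar β = β := by
      rw [hβ, map_smul, D.bar_σ, D.bar_bar, hα]
    rcases hc.ty with h | h | ⟨h, hev⟩
    · exact h hcol
    · have f6 : R + c + 1 + 1 + c ≠ R := by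
        intro h'
        apply h
        linear_combination h'
      rw [t2 _ f6, neg_zero, add_zero] at f3
      have hreal : D.bar wd = wd := real_of D hα0 hα _ (sub_eq_zero.1 f3)
      have g1 := congrArg D.bar e3
      rw [map_add, map_neg, map_sub, map_mul, map_mul, map_mul, D.bar_σ, D.bar_σ, hbarβ, hreal, map_sub,
        D.bar_bar, map_zero, show D.bar zr = zr from hzrF R] at g1
      have g2 : (2 : E) * (zr * (D.bar b - b)) = 0 := by
        linear_combination e3 - g1
      rcases mul_eq_zero.1 g2 with g3 | g3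
      · exact h2E g3
      · exact hbb g3
    · -- `c + 1 = r`, `r` even
      have hsg1 : ∀ a : ZMod (2 * D.r), D.sg a = 1 := by
        intro a
        unfold Dat.sg
        rw [Even.neg_one_pow (hev.mul_right _)]
      have g0 : R + c + 1 = 0 := by
        rw [add_assoc, h]
        exact D.two_r
      have g1 : R + c + 1 + 1 + c = R := by
        linear_combination g0 + h
      rw [g1, t2R, ← hwd, g0, D.σ_zero_apply] at f3
      rw [g0, D.σ_zero_apply] at e3
      have g2 : D.σ 1 β = α := by rw [hβ1, hsg1, one_smul]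
      have g3 := congrArg (D.σ 1) e3
      rw [map_add, map_neg, map_sub, map_mul, map_mul, map_mul, D.σ_apply_neg, hzrF, g2, map_sub,
        map_zero] at g3
      have g4 : b' = D.σ (-c) (D.bar b) := by rw [hb', hsg1, one_smul]
      have g5 : D.bar b' = D.σ (-c) b := by rw [g4, D.bar_σ, D.bar_bar]
      rw [g4, D.bar_σ, D.bar_bar] at f3
      have g6 : D.σ 1 (b - D.bar b) = D.σ (-c) (b - D.bar b) := by
        apply mul_left_cancel₀ hr
        rw [map_sub, map_sub]
        linear_combination f3 - g3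
      have g7 := congrArg (D.σ c) g6
      rw [D.σ_apply_neg, ← D.σ_add_apply, h] at g7
      have g8 : D.bar (b - D.bar b) = b - D.bar b := g7
      rw [map_sub, D.bar_bar] at g8
      have g9 : (2 : E) * (D.bar b - b) = 0 := by linear_combination g8
      rcases mul_eq_zero.1 g9 with g10 | g10
      · exact h2E g10
      · exact hb (sub_eq_zero.1 g10)
  -- conclusion
  obtain ⟨z, hz0⟩ := fr_fixed (hF 0 (Or.inl rfl))
  refine ⟨z, D.ext_co fun d => ?_⟩
  rw [D.co_smul, ← M_one F, D.co_M]
  by_cases hd : d = 0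
  · rw [if_pos hd, hd, ← hz0, Algebra.algebraMap_eq_smul_one]
  · rw [if_neg hd, smul_zero]
    by_contra hn
    rcases step2 d hn with h | h
    · exact hd h
    · rw [h] at hn
      exact hn hzr

end Pool.Agent.H89.UD
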