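import Pool.Agent.H32.UD.Gcd

/-!
# Intersection of two normalisers, `(k, l) ≠ (2, 2)` : definitions

`SS P` is the space of the linear maps `∑_{c ∈ P} a_c Fz c`. For `P = cl k s` this is `{Z | Z a = fr^s (a) Z for a in the subfield with q^k elements}`. So `g` is bad for `(k, l)` only if for some `s, t` there is a non scalar `Z` in `SS (cl k s)` with
`g⁻¹ Z g` in `SS (cl l t)`. For `g = h c(X)`, `c(X) = (1 - X) (1 + X)⁻¹`, put `Y₁ = (1 + X)⁻¹ g⁻¹ Z g`, `Y₂ = Z h (1 + X)⁻¹`: the conditions become the linear system `Psi .. h X (Y₁, Y₂) = 0`, whose coefficients are affine in `X`.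
-/

set_option autoImplicit false
set_option linter.unusedSectionVars false

namespace Pool.Agent.H89.UD

open Module Pool.Agent.H32.UD

variable {F E : Type} [Field F] [Field E] [Algebra F E] (D : Dat F E)

/-- the residue of `c` modulo `k` (used for `k ∣ 2 r`) -/
def res (k : ℕ) (c : ZMod (2 * D.r)) : ZMod k := (c.val : ZMod k)

/-- a residue class -/
def cl (k : ℕ) (s : ZMod k) : Set (ZMod (2 * D.r)) := {c | res D k c = s}

theorem mem_cl {k : ℕ} {s : ZMod k} {c : ZMod (2 * D.r)} : c ∈ cl D k s ↔ res D k c = s := Iff.rfl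

section res

variable {k : ℕ}

theorem res_natCast (hk : k ∣ 2 * D.r) (n : ℕ) : res D k (n : ZMod (2 * D.r)) = (n : ZMod k) := by
  unfold res
  rw [ZMod.val_natCast]
  conv_rhs => rw [← Nat.mod_add_div n (2 * D.r)]
  rw [Nat.cast_add, Nat.cast_mul, (ZMod.natCast_eq_zero_iff _ _).2 hk, zero_mul, add_zero]

theorem res_add (hk : k ∣ 2 * D.r) (c d : ZMod (2 * D.r)) : res D k (c + d) = res D k c + res D k d := by
  have h1 : c = ((c.val : ℕ) : ZMod (2 * D.r)) := (ZMod.natCast_zmod_val c).symm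
  have h2 : d = ((d.val : ℕ) : ZMod (2 * D.r)) := (ZMod.natCast_zmod_val d).symm
  conv_lhs => rw [h1, h2, ← Nat.cast_add]
  rw [res_natCast D hk, Nat.cast_add]
  rfl

theorem res_zero (hk : k ∣ 2 * D.r) : res D k 0 = 0 := by
  have := res_natCast D hk 0
  simpa using this

theorem res_one (hk : k ∣ 2 * D.r) : res D k 1 = 1 := by
  have := res_natCast D hk 1
  simpa using this

theorem res_two (hk : k ∣ 2 * D.r) : res D k 2 = 2 := by
  have := res_natCast D hk 2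
  simpa using this

theorem res_neg (hk : k ∣ 2 * D.r) (c : ZMod (2 * D.r)) : res D k (-c) = -res D k c := by
  have h := res_add D hk (-c) c
  rw [neg_add_cancel, res_zero D hk] at h
  exact eq_neg_of_add_eq_zero_left h.symm

theorem res_sub (hk : k ∣ 2 * D.r) (c d : ZMod (2 * D.r)) : res D k (c - d) = res D k c - res D k d := by
  rw [sub_eq_add_neg, res_add D hk, res_neg D hk, sub_eq_add_neg]

end res

variable [Finite F] [Finite E]

/-- the linear maps with support in `P` -/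
def SS (P : Set (ZMod (2 * D.r))) : Submodule F (Module.End F E) where
  carrier := {Z | ∀ c, c ∉ P → D.co Z c = 0}
  add_mem' := by
    intro a b ha hb c hc
    rw [D.co_add, ha c hc, hb c hc, add_zero]
  zero_mem' := by
    intro c _
    rw [D.co_zero]
  smul_mem' := by
    intro t a ha c hc
    rw [D.co_smul, ha c hc, smul_zero]

theorem mem_SS {P : Set (ZMod (2 * D.r))} {Z : Module.End F E} :
    Z ∈ SS D P ↔ ∀ c, c ∉ P → D.co Z c = 0 := Iff.rfl

/-- the pairs of linear maps -/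
abbrev SP (F E : Type) [Field F] [Field E] [Algebra F E] : Type := Module.End F E × Module.End F E

/-- the target of the linear system -/
abbrev TT (P Q : Set (ZMod (2 * D.r))) : Type :=
  (Module.End F E ⧸ SS D Q) × (Module.End F E ⧸ SS D P) × Module.End F E × F

/-- the linear system in `(Y₁, Y₂)`, see the header -/
noncomputable def Psi (P Q : Set (ZMod (2 * D.r))) (ℓ : Module.End F E →ₗ[F] F) (h : E ≃ₗ[F] E)
    (X : Module.End F E) : SP F E →ₗ[F] TT D P Q :=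
  ((SS D Q).mkQ ∘ₗ LinearMap.mulLeft F (1 + X) ∘ₗ LinearMap.fst F _ _).prod
    (((SS D P).mkQ ∘ₗ LinearMap.mulRight F ((1 + X) * ((h⁻¹ : E ≃ₗ[F] E) : Module.End F E)) ∘ₗ
      LinearMap.snd F _ _).prod
    ((LinearMap.mulRight F (1 - X) ∘ₗ LinearMap.snd F _ _ -
      LinearMap.mulLeft F ((h : Module.End F E) * (1 - X)) ∘ₗ LinearMap.fst F _ _).prod
    (ℓ ∘ₗ LinearMap.mulRight F ((1 + X) * ((h⁻¹ : E ≃ₗ[F] E) : Module.End F E)) ∘ₗ
      LinearMap.snd F _ _)))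

/-- its derivative with respect to `X` -/
noncomputable def PsiL (P Q : Set (ZMod (2 * D.r))) (ℓ : Module.End F E →ₗ[F] F) (h : E ≃ₗ[F] E)
    (X : Module.End F E) : SP F E →ₗ[F] TT D P Q :=
  ((SS D Q).mkQ ∘ₗ LinearMap.mulLeft F X ∘ₗ LinearMap.fst F _ _).prod
    (((SS D P).mkQ ∘ₗ LinearMap.mulRight F (X * ((h⁻¹ : E ≃ₗ[F] E) : Module.End F E)) ∘ₗ
      LinearMap.snd F _ _).prod
    ((LinearMap.mulLeft F ((h : Module.End F E) * X) ∘ₗ LinearMap.fst F _ _ -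
      LinearMap.mulRight F X ∘ₗ LinearMap.snd F _ _).prod
    (ℓ ∘ₗ LinearMap.mulRight F (X * ((h⁻¹ : E ≃ₗ[F] E) : Module.End F E)) ∘ₗ
      LinearMap.snd F _ _)))

theorem Psi_apply (P Q : Set (ZMod (2 * D.r))) (ℓ : Module.End F E →ₗ[F] F) (h : E ≃ₗ[F] E)
    (X Y₁ Y₂ : Module.End F E) : Psi D P Q ℓ h X (Y₁, Y₂) =
    ((SS D Q).mkQ ((1 + X) * Y₁), (SS D P).mkQ (Y₂ * ((1 + X) * ((h⁻¹ : E ≃ₗ[F] E) : Module.End F E))),
    Y₂ * (1 - X) - (h : Module.End F E) * (1 - X) * Y₁,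
    ℓ (Y₂ * ((1 + X) * ((h⁻¹ : E ≃ₗ[F] E) : Module.End F E)))) := rfl

theorem PsiL_apply (P Q : Set (ZMod (2 * D.r))) (ℓ : Module.End F E →ₗ[F] F) (h : E ≃ₗ[F] E)
    (X Y₁ Y₂ : Module.End F E) : PsiL D P Q ℓ h X (Y₁, Y₂) =
    ((SS D Q).mkQ (X * Y₁), (SS D P).mkQ (Y₂ * (X * ((h⁻¹ : E ≃ₗ[F] E) : Module.End F E))),
    (h : Module.End F E) * X * Y₁ - Y₂ * X,
    ℓ (Y₂ * (X * ((h⁻¹ : E ≃ₗ[F] E) : Module.End F E)))) := rfl

/-- the kernel of the system -/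
theorem Psi_eq_zero (P Q : Set (ZMod (2 * D.r))) (ℓ : Module.End F E →ₗ[F] F) (h : E ≃ₗ[F] E)
    (X Y₁ Y₂ : Module.End F E) : Psi D P Q ℓ h X (Y₁, Y₂) = 0 ↔
    (1 + X) * Y₁ ∈ SS D Q ∧ Y₂ * ((1 + X) * ((h⁻¹ : E ≃ₗ[F] E) : Module.End F E)) ∈ SS D P ∧
    Y₂ * (1 - X) = (h : Module.End F E) * (1 - X) * Y₁ ∧
    ℓ (Y₂ * ((1 + X) * ((h⁻¹ : E ≃ₗ[F] E) : Module.End F E))) = 0 := by
  rw [Psi_apply, Prod.mk_eq_zero, Prod.mk_eq_zero, Prod.mk_eq_zero, sub_eq_zero, Submodule.mkQ_apply,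
    Submodule.mkQ_apply, Submodule.Quotient.mk_eq_zero, Submodule.Quotient.mk_eq_zero]

theorem Psi_add (P Q : Set (ZMod (2 * D.r))) (ℓ : Module.End F E →ₗ[F] F) (h : E ≃ₗ[F] E)
    (X Y : Module.End F E) : Psi D P Q ℓ h (X + Y) = Psi D P Q ℓ h X + PsiL D P Q ℓ h Y := by
  refine LinearMap.ext fun Z => ?_
  obtain ⟨Z₁, Z₂⟩ := Z
  rw [LinearMap.add_apply, Psi_apply, Psi_apply, PsiL_apply]
  refine Prod.ext ?_ (Prod.ext ?_ (Prod.ext ?_ ?_))
  · show (SS D Q).mkQ _ = (SS D Q).mkQ _ + (SS D Q).mkQ _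
    rw [← map_add, ← add_mul, add_assoc]
  · show (SS D P).mkQ _ = (SS D P).mkQ _ + (SS D P).mkQ _
    rw [← map_add, ← mul_add, ← add_mul, add_assoc]
  · show Z₂ * (1 - (X + Y)) - (h : Module.End F E) * (1 - (X + Y)) * Z₁ =
      Z₂ * (1 - X) - (h : Module.End F E) * (1 - X) * Z₁ + ((h : Module.End F E) * Y * Z₁ - Z₂ * Y)
    simp only [mul_sub, sub_mul, mul_add, add_mul]
    abel
  · show ℓ _ = ℓ _ + ℓ _
    rw [← map_add, ← mul_add, ← add_mul, add_assoc]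

theorem PsiL_smul (P Q : Set (ZMod (2 * D.r))) (ℓ : Module.End F E →ₗ[F] F) (h : E ≃ₗ[F] E)
    (a : F) (X : Module.End F E) : PsiL D P Q ℓ h (a • X) = a • PsiL D P Q ℓ h X := by
  refine LinearMap.ext fun Z => ?_
  obtain ⟨Z₁, Z₂⟩ := Z
  rw [LinearMap.smul_apply, PsiL_apply, PsiL_apply]
  refine Prod.ext ?_ (Prod.ext ?_ (Prod.ext ?_ ?_))
  · show (SS D Q).mkQ _ = a • (SS D Q).mkQ _
    rw [← map_smul, smul_mul_assoc]
  · show (SS D P).mkQ _ = a • (SS D P).mkQ _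
    rw [← map_smul, smul_mul_assoc, mul_smul_comm]
  · show (h : Module.End F E) * (a • X) * Z₁ - Z₂ * (a • X) =
      a • ((h : Module.End F E) * X * Z₁ - Z₂ * X)
    rw [mul_smul_comm, smul_mul_assoc, mul_smul_comm, smul_sub]
  · show ℓ _ = a • ℓ _
    rw [← map_smul, smul_mul_assoc, mul_smul_comm]

/-- only the zero map satisfies the conditions -/
def Gd (P Q : Set (ZMod (2 * D.r))) (ℓ : Module.End F E →ₗ[F] F) (g : E ≃ₗ[F] E) : Prop :=
  ∀ Z : Module.End F E, Z ∈ SS D P →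
    ((g⁻¹ : E ≃ₗ[F] E) : Module.End F E) * Z * (g : Module.End F E) ∈ SS D Q → ℓ Z = 0 → Z = 0

/-- the functional `ℓ` detects the scalars which satisfy the conditions -/
def Adm (P Q : Set (ZMod (2 * D.r))) (ℓ : Module.End F E →ₗ[F] F) : Prop :=
  ∀ z : F, z • (1 : Module.End F E) ∈ SS D P → z • (1 : Module.End F E) ∈ SS D Q →
    ℓ (z • (1 : Module.End F E)) = 0 → z = 0

end Pool.Agent.H89.UD
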