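import Pool.Agent.H32.UD.Sepx
import Pool.Agent.H89.UD.Defs

/-!
# Elt : the elements `α`, `b` and the degree `c` of the perturbation

PROOFS. `exists_al`: let `γ` be a generator of the cyclic group `Eˣ` (order `q^(2r) - 1 = (q^r - 1)(q^r + 1)`, `Module.natCard_eq_pow_finrank`, `D.fin`) and `α = γ ^ (q^r + 1)`, of order `q^r - 1`. `bar α = α ^ (q^r) = α` (`bar_pow`). If `σ d (α^2) = α^2` then `α^(2 q^n) = α^2`, `n = d.val`
(`σ d x = x ^ (q ^ d.val)`), so `(q^r - 1) ∣ 2 (q^n - 1)` (`orderOf_dvd_iff_pow_eq_one`). Let `n = i` or `n = r + i`, `i < r`; `q^(r+i) - 1 ≡ q^i - 1` modulo `q^r - 1`, so `(q^r - 1) ∣ 2 (q^i - 1)` and `2 (q^i - 1) ≤ 2 (q^(r-1) - 1) < q^r - 1` (`q ≥ 2`), so `q^i = 1`, `i = 0`: `n = 0` or `n = r`, i.e. `d = 0` or `d = r` (`ZMod.natCast_zmod_val`).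
(An alternative without generators: the fixed field of `bar` has `q^r` elements, is cyclic as a group of units.) `exists_b`: otherwise `bar = 1 = σ 0`, `σ_inj`, `r_ne_zero`.
`exists_c`: take `c` = the class of the natural number `n` as follows; all conditions become divisibility statements by `res_natCast`, `ZMod.natCast_eq_zero_iff`, (`(n : ZMod (2r)) = 0 ↔ 2r ∣ n`). Note `k ∣ 2 r` for an odd prime `k` gives `k ∣ r`.
(i) `k = l = 3`: `n = 2`; `3 ∣ r`, `r ≥ 6`; `c + c = 4 ≠ 0`, `c - 1 = 1`, `c + 1 = 3 ≡ 0`, `c + c + 2 = 6 ≠ 0` as `2 r ≥ 12`. (ii) `{k, l} = {2, 3}`: `n = 5`; `3 ∣ r`, `r ≥ 6`; `c + c = 10 ≠ 0` (`2r ≥ 12`), `c - 1 = 4` (not `0` mod `3`), `c + 1 = 6`; if `r ≠ 6` then `r ≥ 9` and `c + c + 2 = 12 ≠ 0`; if `r = 6` then `c + 1 = 6 = r` and `r` is even.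
(iii) one of `k, l` is `2`, the other a prime `p ≥ 5`: `n = 3`; `c + c = 6 ≠ 0` (`2r ≥ 8`), `c - 1 = 2`, `c + 1 = 4` are not `0` modulo `p`. (iv) `k, l` odd, not both `3`: `n = 2`; `c + c = 4 ≠ 0`, `c - 1 = 1`, `c + 1 = 3`, not `0` modulo the one which is not `3`.
-/

set_option autoImplicit false
set_option linter.unusedSectionVars false

namespace Pool.Agent.H89.UD

open Module Pool.Agent.H32.UD

variable {F E : Type} [Field F] [Field E] [Algebra F E] (D : Dat F E)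

/-- the conditions on the degree `c` -/
structure CC (k l : ℕ) (c : ZMod (2 * D.r)) : Prop where
  rk : res D k c ≠ 0
  rl : res D l c ≠ 0
  two : c + c ≠ 0
  m1 : ¬ (res D k (c - 1) = 0 ∧ res D l (c - 1) = 0)
  ty : ¬ (res D k (c + 1) = 0 ∧ res D l (c + 1) = 0) ∨ c + c + 2 ≠ 0 ∨
    (c + 1 = (D.r : ZMod (2 * D.r)) ∧ Even D.r)

private lemma Elt_mk {k l : ℕ} (hkr : k ∣ 2 * D.r) (hlr : l ∣ 2 * D.r) (m : ℕ)
    (h1 : ¬ k ∣ m + 1) (h2 : ¬ l ∣ m + 1) (h3 : ¬ 2 * D.r ∣ 2 * m + 2) (h4 : ¬ (k ∣ m ∧ l ∣ m))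
    (h5 : ¬ (k ∣ m + 2 ∧ l ∣ m + 2) ∨ ¬ 2 * D.r ∣ 2 * m + 4 ∨ (m + 2 = D.r ∧ Even D.r)) :
    ∃ c : ZMod (2 * D.r), CC D k l c := by
  have e1 : (((m + 1 : ℕ) : ZMod (2 * D.r))) - 1 = ((m : ℕ) : ZMod (2 * D.r)) := by
    push_cast; ring
  have e2 : (((m + 1 : ℕ) : ZMod (2 * D.r))) + 1 = ((m + 2 : ℕ) : ZMod (2 * D.r)) := by
    push_cast; ring
  have e3 : (((m + 1 : ℕ) : ZMod (2 * D.r))) + ((m + 1 : ℕ) : ZMod (2 * D.r)) =
      ((2 * m + 2 : ℕ) : ZMod (2 * D.r)) := by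
    push_cast; ring
  have e4 : (((m + 1 : ℕ) : ZMod (2 * D.r))) + ((m + 1 : ℕ) : ZMod (2 * D.r)) + 2 =
      ((2 * m + 4 : ℕ) : ZMod (2 * D.r)) := by
    push_cast; ring
  refine ⟨((m + 1 : ℕ) : ZMod (2 * D.r)), ?_, ?_, ?_, ?_, ?_⟩
  · rw [res_natCast D hkr, Ne, ZMod.natCast_eq_zero_iff]
    exact h1
  · rw [res_natCast D hlr, Ne, ZMod.natCast_eq_zero_iff]
    exact h2
  · rw [e3, Ne, ZMod.natCast_eq_zero_iff]
    exact h3
  · rw [e1, res_natCast D hkr, res_natCast D hlr, ZMod.natCast_eq_zero_iff, ZMod.natCast_eq_zero_iff]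
    exact h4
  · rw [e4, e2, res_natCast D hkr, res_natCast D hlr, ZMod.natCast_eq_zero_iff, ZMod.natCast_eq_zero_iff,
      Ne, ZMod.natCast_eq_zero_iff]
    rcases h5 with h | h | ⟨h, h'⟩
    · exact Or.inl h
    · exact Or.inr (Or.inl h)
    · exact Or.inr (Or.inr ⟨by rw [h], h'⟩)

private lemma Elt_six (h : 3 ∣ 2 * D.r) : 6 ≤ D.r := by
  have h0 := D.four_le
  omega

private lemma Elt_lt {a b : ℕ} (hb : 0 < b) (h : b < a) : ¬ a ∣ b :=
  fun hd => absurd (Nat.le_of_dvd hb hd) (by omega)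

private lemma Elt_prime {p : ℕ} (hp : p.Prime) (h2 : p ≠ 2) (h3 : p ≠ 3) : 5 ≤ p := by
  have h := hp.two_le
  by_contra hcon
  have h4 : p = 4 := by omega
  subst h4
  exact absurd hp (by decide)

private lemma Elt_23 {k l : ℕ} (hkr : k ∣ 2 * D.r) (hlr : l ∣ 2 * D.r) (hk : k = 2) (hl : l = 3) :
    ∃ c : ZMod (2 * D.r), CC D k l c := by
  subst hk hl
  have h6 := Elt_six D hlr
  refine Elt_mk D hkr hlr 4 (by decide) (by decide) (Elt_lt (by norm_num) (by omega)) (by decide) ?_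
  by_cases h : D.r = 6
  · exact Or.inr (Or.inr ⟨h.symm, by rw [h]; decide⟩)
  · exact Or.inr (Or.inl (Elt_lt (by norm_num) (by omega)))

private lemma Elt_2p {k l : ℕ} (hkr : k ∣ 2 * D.r) (hlr : l ∣ 2 * D.r) (hk : k = 2) (hl : 5 ≤ l) :
    ∃ c : ZMod (2 * D.r), CC D k l c := by
  have h4 := D.four_le
  subst hk
  exact Elt_mk D hkr hlr 2 (by decide) (Elt_lt (by norm_num) (by omega))
    (Elt_lt (by norm_num) (by omega)) (fun h => Elt_lt (by norm_num) (by omega) h.2)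
    (Or.inl fun h => Elt_lt (by norm_num) (by omega) h.2)

private lemma CC_symm {k l : ℕ} {c : ZMod (2 * D.r)} (h : CC D k l c) : CC D l k c :=
  ⟨h.rl, h.rk, h.two, fun h' => h.m1 ⟨h'.2, h'.1⟩, h.ty.imp (fun h1 h' => h1 ⟨h'.2, h'.1⟩) id⟩

theorem exists_c {k l : ℕ} (hk : k.Prime) (hl : l.Prime) (hkr : k ∣ 2 * D.r) (hlr : l ∣ 2 * D.r)
    (hkl : ¬ (k = 2 ∧ l = 2)) : ∃ c : ZMod (2 * D.r), CC D k l c := by
  have h4 := D.four_le
  by_cases k2 : k = 2
  · have l2 : l ≠ 2 := fun h => hkl ⟨k2, h⟩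
    by_cases l3 : l = 3
    · exact Elt_23 D hkr hlr k2 l3
    · exact Elt_2p D hkr hlr k2 (Elt_prime hl l2 l3)
  by_cases l2 : l = 2
  · by_cases k3 : k = 3
    · obtain ⟨c, hc⟩ := Elt_23 D hlr hkr l2 k3
      exact ⟨c, CC_symm D hc⟩
    · obtain ⟨c, hc⟩ := Elt_2p D hlr hkr l2 (Elt_prime hk k2 k3)
      exact ⟨c, CC_symm D hc⟩
  have hk3 : 3 ≤ k := by have := hk.two_le; omega
  have hl3 : 3 ≤ l := by have := hl.two_le; omega
  refine Elt_mk D hkr hlr 1 (Elt_lt (by norm_num) (by omega)) (Elt_lt (by norm_num) (by omega))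
    (Elt_lt (by norm_num) (by omega)) (fun h => Elt_lt (by norm_num) (by omega) h.1) ?_
  by_cases h : k = 3 ∧ l = 3
  · have h6 : 6 ≤ D.r := Elt_six D (h.1 ▸ hkr)
    exact Or.inr (Or.inl (Elt_lt (by norm_num) (by omega)))
  · left
    rintro ⟨h1, h2⟩
    exact h ⟨(Nat.prime_dvd_prime_iff_eq hk Nat.prime_three).1 h1,
      (Nat.prime_dvd_prime_iff_eq hl Nat.prime_three).1 h2⟩

variable [Finite F] [Finite E]

private lemma Elt_fr_pow (n : ℕ) (x : E) : (fr F E ^ n) x = x ^ (Nat.card F ^ n) := by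
  induction n with
  | zero => simp
  | succ n ih =>
    rw [pow_succ', AlgEquiv.mul_apply, ih, fr_apply, ← pow_mul, pow_succ]

private lemma Elt_dvd {q r n : ℕ} (hq : 2 ≤ q) (hn : n < 2 * r)
    (h : (q ^ r - 1) ∣ 2 * (q ^ n - 1)) : n = 0 ∨ n = r := by
  have key : ∀ i, i < r → (q ^ r - 1) ∣ 2 * (q ^ i - 1) → i = 0 := by
    intro i hi hd
    by_contra h0
    have h1 : 2 * q ^ i ≤ q ^ r := by
      calc 2 * q ^ i ≤ q * q ^ i := Nat.mul_le_mul_right _ hq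
        _ = q ^ (i + 1) := by rw [pow_succ']
        _ ≤ q ^ r := Nat.pow_le_pow_right (by omega) hi
    have h2 : 2 ≤ q ^ i := by
      calc 2 ≤ q := hq
        _ = q ^ 1 := (pow_one q).symm
        _ ≤ q ^ i := Nat.pow_le_pow_right (by omega) (by omega)
    have h3 := Nat.le_of_dvd (by omega) hd
    omega
  rcases lt_or_ge n r with hlt | hge
  · exact Or.inl (key n hlt h)
  · right
    obtain ⟨i, rfl⟩ := Nat.exists_eq_add_of_le hge
    have hi : i < r := by omega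
    have e : 2 * (q ^ (r + i) - 1) = 2 * q ^ i * (q ^ r - 1) + 2 * (q ^ i - 1) := by
      have h1 : 1 ≤ q ^ i := Nat.one_le_pow _ _ (by omega)
      have h2 : 1 ≤ q ^ r := Nat.one_le_pow _ _ (by omega)
      obtain ⟨a, ha⟩ := Nat.exists_eq_add_of_le h1
      obtain ⟨b, hb⟩ := Nat.exists_eq_add_of_le h2
      rw [pow_add, ha, hb]
      have : (1 + b) * (1 + a) - 1 = a + b + a * b := by
        have : (1 + b) * (1 + a) = a + b + a * b + 1 := by ring
        omega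
      rw [this, Nat.add_sub_cancel_left, Nat.add_sub_cancel_left]
      ring
    rw [e] at h
    have h' := (Nat.dvd_add_right (Dvd.intro_left (2 * q ^ i) rfl)).1 h
    have := key i hi h'
    omega

theorem exists_al : ∃ α : E, α ≠ 0 ∧ D.bar α = α ∧
    ∀ d : ZMod (2 * D.r), D.σ d (α ^ 2) = α ^ 2 → d = 0 ∨ d = (D.r : ZMod (2 * D.r)) := by
  classical
  set q := Nat.card F with hqdef
  have hq : 2 ≤ q := Finite.one_lt_card
  have hr := D.four_le
  obtain ⟨γ, hγ⟩ := IsCyclic.exists_generator (α := Eˣ)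
  have hE : Nat.card E = q ^ (2 * D.r) := by
    rw [Module.natCard_eq_pow_finrank (K := F), D.fin]
  have hEu : Nat.card Eˣ = q ^ (2 * D.r) - 1 := by
    rw [Nat.card_units, hE]
  have hfac : q ^ (2 * D.r) - 1 = (q ^ D.r + 1) * (q ^ D.r - 1) := by
    rw [mul_comm 2, pow_mul, ← Nat.sq_sub_sq, one_pow]
  have hord : orderOf γ = (q ^ D.r + 1) * (q ^ D.r - 1) := by
    rw [orderOf_eq_card_of_forall_mem_zpowers hγ, hEu, hfac]
  have ho : orderOf (γ ^ (q ^ D.r + 1)) = q ^ D.r - 1 := by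
    rw [orderOf_pow_of_dvd (by omega) (by rw [hord]; exact Dvd.intro _ rfl), hord,
      Nat.mul_div_cancel_left _ (by omega)]
  set α : Eˣ := γ ^ (q ^ D.r + 1) with hα
  have h1 : 1 ≤ q ^ D.r := Nat.one_le_pow _ _ (by omega)
  refine ⟨(α : E), α.ne_zero, ?_, ?_⟩
  · rw [D.bar_pow, ← hqdef]
    have h2 : α ^ (q ^ D.r) = α := by
      conv_lhs => rw [← Nat.sub_add_cancel h1, pow_succ, ← ho, pow_orderOf_eq_one, one_mul]
    exact (Units.val_pow_eq_pow_val α (q ^ D.r)).symm.trans (congrArg Units.val h2)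
  · intro d hd
    have h3 : D.σ d ((α : E) ^ 2) = ((α : E) ^ 2) ^ (q ^ d.val) := by
      have := Elt_fr_pow (F := F) d.val ((α : E) ^ 2)
      exact this
    rw [h3] at hd
    have h4 : (α ^ 2) ^ (q ^ d.val) = α ^ 2 := by
      apply Units.ext
      rw [Units.val_pow_eq_pow_val, Units.val_pow_eq_pow_val]
      exact hd
    have h5 : α ^ (2 * (q ^ d.val - 1)) = 1 := by
      have h6 : 1 ≤ q ^ d.val := Nat.one_le_pow _ _ (by omega)
      have h7 : (α ^ 2) ^ (q ^ d.val) = α ^ (2 * (q ^ d.val - 1)) * α ^ 2 := by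
        rw [← pow_mul, ← pow_add]
        congr 1
        omega
      rw [h7] at h4
      exact mul_eq_right.1 h4
    have h8 := orderOf_dvd_of_pow_eq_one h5
    rw [ho] at h8
    rcases Elt_dvd hq (ZMod.val_lt d) h8 with h9 | h9
    · left
      rw [← ZMod.natCast_zmod_val d, h9, Nat.cast_zero]
    · right
      rw [← ZMod.natCast_zmod_val d, h9]

theorem exists_b : ∃ b : E, D.bar b ≠ b := by
  by_contra hcon
  push Not at hcon
  apply D.r_ne_zero
  apply D.σ_inj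
  rw [D.σ_zero]
  exact AlgEquiv.ext hcon

end Pool.Agent.H89.UD
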