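import Pool.Agent.H89.UD.Cay

/-!
# Ker : the kernel of the linear system

Let `1 + X` be injective (hence bijective) and `u (1 + X) = 1 - X`, `g = h u`. PROOF of `Psi_inj_iff`. For `(Y₁, Y₂)` put `Z = Y₂ (1 + X) h⁻¹`, `Z' = (1 + X) Y₁`. `Z g = Y₂ (1 + X) h⁻¹ h u = Y₂ (1 + X) u` and `(1 + X) u (1 + X) = (1 + X) (1 - X) = (1 - X) (1 + X)`, cancel the surjective `1 + X` on the right: `(1 + X) u = 1 - X`.
So `Z g = Y₂ (1 - X)`; `g Z' = h u (1 + X) Y₁ = h (1 - X) Y₁`. Hence by `Psi_eq_zero` the kernel of `Psi` is: `Z' ∈ SS Q`, `Z ∈ SS P`, `Z g = g Z'` (i.e. `Z' = g⁻¹ Z g`), `ℓ Z = 0`.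
(←) if `Gd (h u)` then `Z = 0`, so `Z' = 0` and `Y₁ = Y₂ = 0` as `1 + X` is invertible (`(1 + X) Y₁ = 0` gives `Y₁ = 0` by injectivity; `Y₂ (1 + X) h⁻¹ = 0` gives `Y₂ = 0` by surjectivity of `(1 + X) h⁻¹`). (→) given `Z` as in `Gd`, let `W` be the inverse of `1 + X`
(`LinearEquiv.ofInjectiveEndo` or `ofBijective`), `Y₂ = Z h W`, `Y₁ = W g⁻¹ Z g`; `Psi (Y₁, Y₂) = 0`, so `Y₂ = 0`, `Z = 0`.
-/

set_option autoImplicit false
set_option linter.unusedSectionVars false

namespace Pool.Agent.H89.UD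

open Module Pool.Agent.H32.UD

section

variable {R : Type} [Ring R] {A B W U Ui H Hi : R}

private theorem Ker_AU (hAW : A * W = 1) (hUA : U * A = B) (hAB : A * B = B * A) : A * U = B := by
  have h1 : A * U * A = B * A := by rw [mul_assoc, hUA, hAB]
  have h2 : A * U * A * W = B * A * W := by rw [h1]
  rwa [mul_assoc, hAW, mul_one, mul_assoc, hAW, mul_one] at h2

private theorem Ker_WB (hWA : W * A = 1) (hAU : A * U = B) : W * B = U := by
  rw [← hAU, ← mul_assoc, hWA, one_mul]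

/-- the conjugate of `Z = Y₂ A Hi` -/
private theorem Ker_conj (hU2 : Ui * U = 1) (hH2 : Hi * H = 1) (hUA : U * A = B) (hAU : A * U = B)
    {Y₁ Y₂ : R} (h3 : Y₂ * B = H * B * Y₁) : Ui * Hi * (Y₂ * (A * Hi)) * (H * U) = A * Y₁ := by
  have e1 : Ui * Hi * (Y₂ * (A * Hi)) * (H * U) = Ui * (Hi * (Y₂ * (A * ((Hi * H) * U)))) := by
    simp only [mul_assoc]
  rw [e1, hH2, one_mul, hAU, h3]
  have e2 : Ui * (Hi * (H * B * Y₁)) = Ui * ((Hi * H) * (B * Y₁)) := by simp only [mul_assoc]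
  rw [e2, hH2, one_mul, ← hUA]
  have e3 : Ui * (U * A * Y₁) = (Ui * U) * (A * Y₁) := by simp only [mul_assoc]
  rw [e3, hU2, one_mul]

private theorem Ker_back (hWA : W * A = 1) (hH1 : H * Hi = 1) (Z : R) :
    Z * H * W * (A * Hi) = Z := by
  have e1 : Z * H * W * (A * Hi) = Z * (H * ((W * A) * Hi)) := by simp only [mul_assoc]
  rw [e1, hWA, one_mul, hH1, mul_one]

private theorem Ker_three (hAW : A * W = 1) (hU1 : U * Ui = 1) (hH1 : H * Hi = 1) (hUA : U * A = B)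
    (hWB : W * B = U) (Z : R) :
    Z * H * W * B = H * B * (W * (Ui * Hi * Z * (H * U))) := by
  have e1 : Z * H * W * B = Z * (H * (W * B)) := by simp only [mul_assoc]
  have e2 : H * (U * A) * (W * (Ui * Hi * Z * (H * U))) =
      H * (U * ((A * W) * (Ui * (Hi * (Z * (H * U)))))) := by simp only [mul_assoc]
  have e3 : H * (U * (Ui * (Hi * (Z * (H * U))))) = H * ((U * Ui) * (Hi * (Z * (H * U)))) := by
    simp only [mul_assoc]
  have e4 : H * (Hi * (Z * (H * U))) = (H * Hi) * (Z * (H * U)) := by simp only [mul_assoc]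
  rw [e1, hWB, ← hUA, e2, hAW, one_mul, e3, hU1, one_mul, e4, hH1, one_mul]

end

variable {F E : Type} [Field F] [Field E] [Algebra F E] (D : Dat F E) [Finite F] [Finite E]

theorem Psi_inj_iff (P Q : Set (ZMod (2 * D.r))) (ℓ : Module.End F E →ₗ[F] F) (h u : E ≃ₗ[F] E)
    {X : Module.End F E} (h1 : Function.Injective (1 + X : Module.End F E))
    (hu : (u : Module.End F E) * (1 + X) = 1 - X) :
    Function.Injective (Psi D P Q ℓ h X) ↔ Gd D P Q ℓ (h * u) := by
  have hfin : Module.Finite F E := Module.Finite.of_finite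
  have hsurj : Function.Surjective (1 + X : Module.End F E) := LinearMap.injective_iff_surjective.1 h1
  obtain ⟨W, hWA, hAW⟩ : ∃ W : Module.End F E, W * (1 + X) = 1 ∧ (1 + X) * W = 1 := by
    let e : E ≃ₗ[F] E := LinearEquiv.ofBijective (1 + X) ⟨h1, hsurj⟩
    refine ⟨(e.symm : Module.End F E), ?_, ?_⟩
    · refine LinearMap.ext fun x => ?_
      exact e.symm_apply_apply x
    · refine LinearMap.ext fun x => ?_
      exact e.apply_symm_apply x
  have hgen : ∀ v : E ≃ₗ[F] E, (v : Module.End F E) * ((v⁻¹ : E ≃ₗ[F] E) : Module.End F E) = 1 ∧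
      ((v⁻¹ : E ≃ₗ[F] E) : Module.End F E) * (v : Module.End F E) = 1 := by
    intro v
    constructor
    · refine LinearMap.ext fun x => ?_
      exact v.apply_symm_apply x
    · refine LinearMap.ext fun x => ?_
      exact v.symm_apply_apply x
  obtain ⟨hh1, hh2⟩ := hgen h
  obtain ⟨hu1, hu2⟩ := hgen u
  have hg : ((h * u : E ≃ₗ[F] E) : Module.End F E) = (h : Module.End F E) * (u : Module.End F E) := rfl
  have hgi : (((h * u)⁻¹ : E ≃ₗ[F] E) : Module.End F E) =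
      ((u⁻¹ : E ≃ₗ[F] E) : Module.End F E) * ((h⁻¹ : E ≃ₗ[F] E) : Module.End F E) := by
    rw [mul_inv_rev]
    rfl
  have hAB : (1 + X : Module.End F E) * (1 - X) = (1 - X) * (1 + X) := by
    simp only [mul_sub, sub_mul, mul_add, add_mul, mul_one, one_mul]
    abel
  have hAU := Ker_AU hAW hu hAB
  have hWB := Ker_WB hWA hAU
  constructor
  · intro hinj Z hZP hZQ hZℓ
    rw [hg, hgi] at hZQ
    have h0 : Psi D P Q ℓ h X (W * (((u⁻¹ : E ≃ₗ[F] E) : Module.End F E) *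
        ((h⁻¹ : E ≃ₗ[F] E) : Module.End F E) * Z * ((h : Module.End F E) * (u : Module.End F E))),
        Z * (h : Module.End F E) * W) = 0 := by
      rw [Psi_eq_zero, Ker_back hWA hh1 Z]
      refine ⟨?_, hZP, Ker_three hAW hu1 hh1 hu hWB Z, hZℓ⟩
      rw [← mul_assoc, hAW, one_mul]
      exact hZQ
    have h2 := hinj (h0.trans (map_zero _).symm)
    have h3 : Z * (h : Module.End F E) * W = 0 := congrArg Prod.snd h2
    rw [← Ker_back hWA hh1 Z, h3, zero_mul]
  · intro hGd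
    rw [← LinearMap.ker_eq_bot, LinearMap.ker_eq_bot']
    rintro ⟨Y₁, Y₂⟩ hY
    rw [Psi_eq_zero] at hY
    obtain ⟨k1, k2, k3, k4⟩ := hY
    have hconj := Ker_conj hu2 hh2 hu hAU k3
    have hZ := hGd _ k2 (by rw [hg, hgi, hconj]; exact k1) k4
    have hY2 : Y₂ = 0 := by
      have e1 : Y₂ * ((1 + X) * ((h⁻¹ : E ≃ₗ[F] E) : Module.End F E)) * ((h : Module.End F E) * W) =
          Y₂ * ((1 + X) * ((((h⁻¹ : E ≃ₗ[F] E) : Module.End F E) * (h : Module.End F E)) * W)) := by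
        simp only [mul_assoc]
      rw [hh2, one_mul, hAW, mul_one, hZ, zero_mul] at e1
      exact e1.symm
    have hY1 : Y₁ = 0 := by
      rw [hZ, mul_zero, zero_mul] at hconj
      have e2 : W * ((1 + X) * Y₁) = Y₁ := by rw [← mul_assoc, hWA, one_mul]
      rw [← e2, ← hconj, mul_zero]
    rw [hY1, hY2]
    rfl

end Pool.Agent.H89.UD
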